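import Pool.Agent.N625.PT.X18
import Pool.Agent.Y877.SxI
import Pool.Agent.Run7.h672.XC.X18
import Pool.Agent.Run7.h414.DP.XR

/-!
# The number of all `n ≤ x` with `p_n + 2 (a n + N)` prime, for almost all slopes `a` and almost all multiples `N` of random
# integers with determinantal digits

The digits of the random integer `v` are given by a determinantal random set `S` of positions (a determinantal point process
with an arbitrary Hermitian kernel): the digit number `i` is `y i` if `i ∈ S` and `x i ≠ y i` otherwise. Examples (their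
existence is not used and not formalised): the edges of a uniform spanning tree of a graph with `k` edges; stationary
determinantal processes with any symbol which is not almost everywhere `0` or almost everywhere `1` (for example the discrete
sine process with any density); independent digits.

Definitions used (in `Pool.Agent.Run7.h414.DP.Law` and `Pool.Agent.Run7.h414.DP.Fam`): `DetLaw`, `GoodPos`, `DetDigits`
(used with `t = 0`: `0 ≤ p v ≤ μ v` with the law `μ` of an integer with determinantal digits).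

Method: the characteristic function is `det (1 + D A)`; the inequality `|det N|² ≤ exp (tr N* N - k)` for
`N = 1 + B D B*`, `A = B* B`, bounds it by `exp (- E)` with an energy `E` which is at least a constant times the number of
the places where the frequency is far from the rational numbers with small denominators. With this input the sieve and the
circle method of the starting library for exchangeable blocks (`Pool.Agent.N625.PT`, in the form for classes of laws of
`Pool.Agent.Run7.h672.XC`) go through.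
-/

set_option autoImplicit false

open Finset
open Pool.Agent.Run7.h414.DP (DC DC_sum DC_nonneg DetDigits fam_dc dc_rcls)

namespace Pool.Agent.Results.MP_3aaefc_nt.DeterminantalLinearPolynomials

/-- the `n`-th prime, `n ≥ 1` -/
noncomputable def p (n : ℕ) : ℕ := Nat.nth Nat.Prime (n - 1)

/-- the product of `1 - 1/q` over the primes `q ≤ y` -/
noncomputable def V (y : ℕ) : ℝ := ∏ q ∈ (Icc 1 y).filter Nat.Prime, (1 - 1 / (q : ℝ))

/-- the multiple of the product of the primes `≤ y` given by the integers `h` and `c + κ v` -/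
def Nv (y h : ℕ) (c κ : ℤ) (v : ℕ) : ℤ := ((primorial y * h : ℕ) : ℤ) * (c + κ * v)

/-- the `1 ≤ i ≤ x` such that `p_i + 2 P(i)` is prime, for the linear polynomial `P(i) = a i + n` -/
noncomputable def Good (a x : ℕ) (n : ℤ) : Finset ℕ := (Icc 1 x).filter (fun i : ℕ => ((p i : ℤ) + 2 * (a * i + n)).toNat.Prime)

/-- the `1 ≤ i ≤ x` such that `p_i + 2 a i` is prime to `D` -/
noncomputable def Adm (a D x : ℕ) : Finset ℕ := (Icc 1 x).filter (fun i : ℕ => (p i + 2 * a * i).Coprime D)

lemma p_lt (n : ℕ) (hn : 1 ≤ n) : n < p n := by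
  unfold p
  have := Nat.add_two_le_nth_prime (n - 1)
  omega

lemma p_prime (n : ℕ) : (p n).Prime := Nat.prime_nth_prime _

lemma f_inj (a : ℕ) {m n : ℕ} (hm : 1 ≤ m) (hn : 1 ≤ n) (h : p m + 2 * a * m = p n + 2 * a * n) : m = n := by
  rcases lt_trichotomy m n with hlt | heq | hlt
  · exfalso
    have h1 : p m < p n := Nat.nth_strictMono Nat.infinite_setOf_prime (by omega)
    have h2 : 2 * a * m ≤ 2 * a * n := Nat.mul_le_mul_left _ hlt.le
    omega
  · exact heq
  · exfalso
    have h1 : p n < p m := Nat.nth_strictMono Nat.infinite_setOf_prime (by omega)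
    have h2 : 2 * a * n ≤ 2 * a * m := Nat.mul_le_mul_left _ hlt.le
    omega

lemma mult_adm (a D n : ℕ) (hn : 1 ≤ n) (hD : D ∣ n) : (p n + 2 * a * n).Coprime D := by
  by_contra hcop
  obtain ⟨q, hqp, hqa, hqb⟩ := Nat.Prime.not_coprime_iff_dvd.1 hcop
  have h1 : q ∣ n := hqb.trans hD
  have h2 : q ∣ p n := (Nat.dvd_add_left (h1.mul_left (2 * a))).1 hqa
  have h3 : q = p n := (Nat.prime_dvd_prime_iff_eq hqp (p_prime n)).1 h2
  have h4 := Nat.le_of_dvd (by omega) h1
  have h5 := p_lt n hn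
  omega

lemma adm_card (a D x : ℕ) : x / D ≤ (Adm a D x).card := by
  rw [← Nat.Ioc_filter_dvd_card_eq_div x D]
  apply card_le_card
  intro n hn
  rw [mem_filter, mem_Ioc] at hn
  unfold Adm
  rw [mem_filter, mem_Icc]
  exact ⟨⟨by omega, hn.1.2⟩, mult_adm a D n (by omega) hn.2⟩

/-- the law itself -/
theorem main : ∀ b L : ℕ, 2 ≤ b → ∀ η : ℝ, 0 < η → ∀ κ : ℤ, κ ≠ 0 →
    ∀ (B J C K₁ : ℕ) (θ : ℝ), 0 < θ → ∀ ε : ℝ, 0 < ε → ε ≤ 1 → ∃ k₀ : ℕ, ∀ k : ℕ, k₀ ≤ k →
    ∀ μ : ℕ → ℝ, DC b L η k μ → ∀ y : ℕ, θ * Real.log k ≤ y → y ≤ K₁ * Real.log k →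
    ∀ c : ℤ, |c| ≤ B * (b : ℤ) ^ k → ∀ A H : ℕ, A ≤ k ^ J → H ≤ k ^ J →
    ∀ x : ℕ, b ^ k ≤ x * k ^ C → x ≤ b ^ k * k ^ C →
      (∀ a h : ℕ, x / (primorial y * h) ≤ (Adm a (primorial y * h) x).card) ∧
      ∑ v ∈ range (b ^ k), (if (((range (A + 1) ×ˢ Icc 1 H).filter (fun z => ¬ (0 < Nv y z.2 c κ v →
          |((Good z.1 x (Nv y z.2 c κ v)).card : ℝ) - (Adm z.1 (primorial y * z.2) x).card / (V y * (k * Real.log b))| ≤
            ε * ((Adm z.1 (primorial y * z.2) x).card / (V y * (k * Real.log b)))))).card : ℝ) ≤ ε * ((A + 1) * H)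
        then 0 else μ v) ≤ ε := by
  classical
  intro b L hb η hη κ hκ B J C K₁ θ hθ ε hε hε1
  have hcls := dc_rcls b L hb η hη
  have hε2 : ε ^ 2 ≤ ε := by nlinarith
  obtain ⟨k₀, h0⟩ := Pool.Agent.Run7.h672.XC.law2 hcls (2 * κ) (mul_ne_zero two_ne_zero hκ) (2 * B) J
    (2 * K₁ + 2 * J + 6) (C + J + 5) K₁ θ hθ (ε ^ 2) (by positivity) (hε2.trans hε1)
  obtain ⟨k₁, h1⟩ := Pool.Agent.N625.PT.X_large b C hb
  obtain ⟨k₂, h2⟩ := Pool.Agent.N625.PT.log_X b C hb
  obtain ⟨k₃, h3⟩ := Pool.Agent.N625.PT.pow_le_pow_digits b hb (2 * K₁ + J + C)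
  obtain ⟨n4, hn4⟩ := Pool.Agent.Y877.SX.nth_le_log
  refine ⟨max (max k₀ k₁) (max (max k₂ k₃) (max 5 n4)), fun k hk μ hμ y hy1 hy2 c hc A H hA hH x hx1 hx2 =>
    ⟨fun a h => adm_card a _ x, ?_⟩⟩
  have b4 : 5 ≤ k := by omega
  have hkr : (5 : ℝ) ≤ k := by exact_mod_cast b4
  have hk0 : (0 : ℝ) < k := by linarith
  have hkx := h1 k (by omega) x hx1
  have hlx := h2 k (by omega) x hx2
  have hk3 := h3 k (by omega)
  have hln : 0 ≤ Real.log x := Real.log_natCast_nonneg x
  have hx0 : (0 : ℝ) ≤ x := Nat.cast_nonneg x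
  have hbigx : k ^ (2 * K₁ + J) ≤ x := by
    have : k ^ (2 * K₁ + J) * k ^ C ≤ x * k ^ C := by
      rw [← pow_add]
      exact hk3.trans hx1
    exact Nat.le_of_mul_le_mul_right this (by positivity)
  have hX1 : b ^ k ≤ (x * k ^ (J + 5)) * k ^ (C + J + 5) := by
    refine hx1.trans ?_
    rw [mul_assoc, ← pow_add]
    exact Nat.mul_le_mul_left _ (Nat.pow_le_pow_right (by omega) (by omega))
  have hX2 : x * k ^ (J + 5) ≤ b ^ k * k ^ (C + J + 5) := by
    calc x * k ^ (J + 5) ≤ (b ^ k * k ^ C) * k ^ (J + 5) := Nat.mul_le_mul_right _ hx2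
      _ = _ := by rw [mul_assoc, ← pow_add, add_assoc]
  have hp : ∀ n : ℕ, n ≤ x → p n ≤ x * k ^ 4 := by
    intro n hn
    have g1 : ((p n : ℕ) : ℝ) ≤ x * (k : ℝ) ^ 4 := by
      refine (hn4 x (by omega) (n - 1) (by omega)).trans ?_
      apply mul_le_mul_of_nonneg_left _ hx0
      calc Real.log x ^ 2 ≤ ((k : ℝ) ^ 2) ^ 2 := pow_le_pow_left₀ hln hlx _
        _ = (k : ℝ) ^ 4 := by rw [← pow_mul]
    exact_mod_cast g1
  have hf : ∀ a n : ℕ, a ≤ A → n ≤ x → p n + 2 * a * n ≤ x * k ^ (J + 5) := by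
    intro a n ha hn
    have g1 : 2 * a * n ≤ 2 * k ^ J * x := Nat.mul_le_mul (Nat.mul_le_mul_left 2 (ha.trans hA)) hn
    have g2 := hp n hn
    have g3 : k ^ 4 + 2 * k ^ J ≤ k ^ (J + 5) := by
      have e1 : 1 ≤ k ^ J := Nat.one_le_pow _ _ (by omega)
      have e2 : 1 ≤ k ^ 4 := Nat.one_le_pow _ _ (by omega)
      have e3 : k ^ (J + 5) = k ^ J * (k ^ 4 * k) := by ring
      rw [e3]
      calc k ^ 4 + 2 * k ^ J ≤ k ^ J * k ^ 4 + 2 * (k ^ J * k ^ 4) := by nlinarith
        _ = k ^ J * (k ^ 4 * 3) := by ring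
        _ ≤ _ := Nat.mul_le_mul_left _ (Nat.mul_le_mul_left _ (by omega))
    calc p n + 2 * a * n ≤ x * k ^ 4 + 2 * k ^ J * x := by omega
      _ = x * (k ^ 4 + 2 * k ^ J) := by ring
      _ ≤ _ := Nat.mul_le_mul_left _ g3
  obtain ⟨Bd, hBd⟩ : ∃ Bd : ℕ × ℕ → ℕ → Prop, ∀ z v, Bd z v ↔ (0 < Nv y z.2 c κ v ∧
    ε * ((Adm z.1 (primorial y * z.2) x).card / (V y * (k * Real.log b))) <
    |((Good z.1 x (Nv y z.2 c κ v)).card : ℝ) - (Adm z.1 (primorial y * z.2) x).card / (V y * (k * Real.log b))|) := ⟨_, fun _ _ => Iff.rfl⟩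
  have hVy : 0 < V y := Pool.Agent.H373R2.T7.Vz_pos y
  have hlogb : 0 ≤ Real.log b := Real.log_natCast_nonneg b
  have key : ∀ z ∈ range (A + 1) ×ˢ Icc 1 H, ∑ v ∈ range (b ^ k), (if Bd z v then μ v else 0) ≤ ε ^ 2 := by
    intro z hz
    obtain ⟨a, h⟩ := z
    rw [mem_product, mem_range, mem_Icc] at hz
    obtain ⟨haA, hh1, hhH⟩ := hz
    simp only at haA hh1 hhH
    have haA' : a ≤ A := by omega
    obtain ⟨D, hD⟩ : ∃ D, D = primorial y * h := ⟨_, rfl⟩
    have hD1 : 1 ≤ D := by rw [hD]; exact Nat.mul_pos (primorial_pos y) hh1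
    have hDk : D ≤ k ^ (2 * K₁ + J) := by
      rw [hD]
      exact Pool.Agent.N625.PT.mult_small K₁ J k y h (by omega) hy2 (hhH.trans hH)
    have hDx : D ≤ x := hDk.trans hbigx
    obtain ⟨S, hS⟩ : ∃ S, S = Adm a (primorial y * h) x := ⟨_, rfl⟩
    have hden : (x : ℝ) ≤ S.card * (k : ℝ) ^ (2 * K₁ + J + 1) := by
      have g1 : x / D ≤ S.card := by rw [hS, hD]; exact adm_card a _ x
      have g2 : x ≤ 2 * (x / D * D) := by
        have e1 := Nat.div_add_mod x D
        have e2 : x % D < D := Nat.mod_lt _ (by omega)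
        have e3 : 1 ≤ x / D := (Nat.one_le_div_iff (by omega)).2 hDx
        have e4 : D ≤ x / D * D := Nat.le_mul_of_pos_left _ e3
        have e5 : D * (x / D) = x / D * D := by ring
        omega
      have g3 : x ≤ S.card * k ^ (2 * K₁ + J + 1) := by
        calc x ≤ 2 * (x / D * D) := g2
          _ ≤ 2 * (S.card * k ^ (2 * K₁ + J)) := Nat.mul_le_mul_left 2 (Nat.mul_le_mul g1 hDk)
          _ = S.card * (k ^ (2 * K₁ + J) * 2) := by ring
          _ ≤ S.card * (k ^ (2 * K₁ + J) * k) := Nat.mul_le_mul_left _ (Nat.mul_le_mul_left _ (by omega))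
          _ = _ := by rw [← pow_succ]
      exact_mod_cast g3
    have hS1 : ∀ n ∈ S, 1 ≤ n ∧ n ≤ x ∧ (p n + 2 * a * n).Coprime (primorial y * h) := by
      intro n hn
      rw [hS] at hn
      unfold Adm at hn
      rw [mem_filter, mem_Icc] at hn
      exact ⟨hn.1.1, hn.1.2, hn.2⟩
    obtain ⟨S', hS'⟩ : ∃ S', S' = S.image (fun n : ℕ => p n + 2 * a * n) := ⟨_, rfl⟩
    have hinj : Set.InjOn (fun n : ℕ => p n + 2 * a * n) S := fun m hm n hn hmn =>
      f_inj a (hS1 m (by exact_mod_cast hm)).1 (hS1 n (by exact_mod_cast hn)).1 hmn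
    have hcard : S'.card = S.card := by rw [hS']; exact card_image_of_injOn hinj
    have hc2 : |2 * c| ≤ ((2 * B : ℕ) : ℤ) * (b : ℤ) ^ k := by
      rw [abs_mul]
      push_cast
      have : |(2 : ℤ)| = 2 := rfl
      rw [this]
      linarith
    have h5 := h0 k (by omega) μ hμ y hy1 hy2 (2 * c) hc2 h hh1 (hhH.trans hH) (x * k ^ (J + 5)) hX1 hX2 S' (by
        intro s hs
        rw [hS', mem_image] at hs
        obtain ⟨n, hn, rfl⟩ := hs
        have g1 := hS1 n hn
        rw [mem_Icc]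
        exact ⟨by have := (p_prime n).pos; omega, hf a n haA' g1.2.1⟩) (by
        intro s hs
        rw [hS', mem_image] at hs
        obtain ⟨n, hn, rfl⟩ := hs
        exact (hS1 n hn).2.2) (by
        rw [hcard]
        push_cast
        calc (x : ℝ) * (k : ℝ) ^ (J + 5) ≤ (S.card * (k : ℝ) ^ (2 * K₁ + J + 1)) * (k : ℝ) ^ (J + 5) :=
              mul_le_mul_of_nonneg_right hden (by positivity)
          _ = _ := by rw [mul_assoc, ← pow_add]; congr 2; omega) 1 (Or.inl rfl)
    refine le_trans (sum_le_sum fun v _ => ?_) h5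
    have hpv := DC_nonneg hμ v
    by_cases hq : Bd (a, h) v
    · rw [if_pos hq, if_pos]
      rw [hBd] at hq
      simp only at hq
      rw [← hS] at hq
      obtain ⟨q1, q2⟩ := hq
      have hNv : ((primorial y * h : ℕ) : ℤ) * (2 * c + 2 * κ * (v : ℕ)) = 2 * Nv y h c κ v := by
        unfold Nv
        ring
      refine ⟨fun s hs => ?_, ?_⟩
      · rw [hNv]
        have : (0 : ℤ) ≤ (s : ℤ) := Int.natCast_nonneg s
        linarith
      · have e1 : (S'.filter (fun s : ℕ => (((primorial y * h : ℕ) : ℤ) * (2 * c + 2 * κ * (v : ℕ)) + 1 * (s : ℕ)).toNat.Prime)).card =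
            (Good a x (Nv y h c κ v)).card := by
          rw [hS', filter_image, card_image_of_injOn (hinj.mono (by
            intro i hi
            rw [mem_coe, mem_filter] at hi
            exact_mod_cast hi.1))]
          unfold Good
          congr 1
          ext n
          rw [mem_filter, mem_filter, mem_Icc]
          have e : ∀ n : ℕ, 2 * Nv y h c κ v + 1 * ((p n + 2 * a * n : ℕ) : ℤ) = (p n : ℤ) + 2 * (a * n + Nv y h c κ v) := by
            intro n
            push_cast
            ring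
          constructor
          · rintro ⟨hn, hpr⟩
            have g1 := hS1 n hn
            rw [hNv, e n] at hpr
            exact ⟨⟨g1.1, g1.2.1⟩, hpr⟩
          · rintro ⟨⟨g1, g2⟩, g4⟩
            have hnS : n ∈ S := by
              rw [hS]
              unfold Adm
              rw [mem_filter, mem_Icc]
              refine ⟨⟨g1, g2⟩, ?_⟩
              by_contra hcop
              obtain ⟨q, hqp, hqa, hqb⟩ := Nat.Prime.not_coprime_iff_dvd.1 hcop
              -- `q` divides the prime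
              have f1 : (q : ℤ) ∣ (p n : ℤ) + 2 * (a * n + Nv y h c κ v) := by
                rw [← e n]
                apply dvd_add
                · apply Dvd.dvd.mul_left
                  unfold Nv
                  exact (by exact_mod_cast hqb : (q : ℤ) ∣ ((primorial y * h : ℕ) : ℤ)).mul_right _
                · rw [one_mul]
                  exact_mod_cast hqa
              have f0 : (0 : ℤ) ≤ (p n : ℤ) := Int.natCast_nonneg _
              have f0' : (0 : ℤ) ≤ (a : ℤ) * n := by positivity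
              have f2 : (0 : ℤ) < (p n : ℤ) + 2 * (a * n + Nv y h c κ v) := by linarith
              have f3 : q ∣ ((p n : ℤ) + 2 * (a * n + Nv y h c κ v)).toNat := by
                rw [← Int.natCast_dvd_natCast, Int.toNat_of_nonneg f2.le]
                exact f1
              have f4 := (Nat.prime_dvd_prime_iff_eq hqp g4).1 f3
              have f5 : q ≤ primorial y * h := Nat.le_of_dvd (Nat.mul_pos (primorial_pos y) hh1) hqb
              have f6 : ((primorial y * h : ℕ) : ℤ) ≤ Nv y h c κ v := by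
                apply Int.le_of_dvd q1
                unfold Nv
                exact dvd_mul_right _ _
              have f7 : (q : ℤ) = (p n : ℤ) + 2 * (a * n + Nv y h c κ v) := by
                rw [f4, Int.toNat_of_nonneg f2.le]
              have f8 : (q : ℤ) ≤ ((primorial y * h : ℕ) : ℤ) := by exact_mod_cast f5
              linarith
            refine ⟨hnS, ?_⟩
            rw [hNv, e n]
            exact g4
        rw [e1, hcard]
        refine lt_of_le_of_lt ?_ q2
        apply mul_le_mul_of_nonneg_right hε2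
        exact div_nonneg (Nat.cast_nonneg _) (mul_nonneg hVy.le (mul_nonneg hk0.le hlogb))
    · rw [if_neg hq]
      split_ifs
      · exact hpv
      · exact le_rfl
  -- Markov
  obtain ⟨cnt, hcnt⟩ : ∃ cnt : ℕ → ℝ, ∀ v, cnt v = (((range (A + 1) ×ˢ Icc 1 H).filter (fun z => Bd z v)).card : ℝ) := ⟨_, fun _ => rfl⟩
  have hcnt0 : ∀ v, 0 ≤ cnt v := fun v => by rw [hcnt]; exact Nat.cast_nonneg _
  have hset : ∀ v, (((range (A + 1) ×ˢ Icc 1 H).filter (fun z => ¬ (0 < Nv y z.2 c κ v →
          |((Good z.1 x (Nv y z.2 c κ v)).card : ℝ) - (Adm z.1 (primorial y * z.2) x).card / (V y * (k * Real.log b))| ≤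
            ε * ((Adm z.1 (primorial y * z.2) x).card / (V y * (k * Real.log b)))))).card : ℝ) = cnt v := by
    intro v
    rw [hcnt]
    congr 2
    apply filter_congr
    intro z _
    rw [hBd]
    push Not
    rfl
  have hexp : ∑ v ∈ range (b ^ k), μ v * cnt v ≤ ((A + 1) * H) * ε ^ 2 := by
    have e1 : ∀ v, μ v * cnt v = ∑ z ∈ range (A + 1) ×ˢ Icc 1 H, (if Bd z v then μ v else 0) := by
      intro v
      rw [hcnt, card_eq_sum_ones, Nat.cast_sum, sum_filter, mul_sum]
      apply sum_congr rfl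
      intro z _
      split_ifs <;> simp
    simp_rw [e1]
    rw [sum_comm]
    refine (sum_le_sum key).trans (le_of_eq ?_)
    rw [sum_const, card_product, card_range, Nat.card_Icc, nsmul_eq_mul, Nat.add_sub_cancel]
    push_cast
    ring
  simp_rw [hset]
  rcases Nat.eq_zero_or_pos H with hH0 | hH0
  · refine le_trans (le_of_eq ?_) hε.le
    apply sum_eq_zero
    intro v _
    rw [if_pos]
    rw [hcnt, hH0]
    simp
  · have hHr : (0 : ℝ) < H := by exact_mod_cast hH0
    have hAr : (0 : ℝ) < (A : ℝ) + 1 := by positivity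
    have h6 : (∑ v ∈ range (b ^ k), (if cnt v ≤ ε * ((A + 1) * H) then 0 else μ v)) * (ε * ((A + 1) * H)) ≤ ε * (ε * ((A + 1) * H)) := by
      calc (∑ v ∈ range (b ^ k), (if cnt v ≤ ε * ((A + 1) * H) then 0 else μ v)) * (ε * ((A + 1) * H)) ≤ ∑ v ∈ range (b ^ k), μ v * cnt v := by
            rw [sum_mul]
            apply sum_le_sum
            intro v _
            have hpv := DC_nonneg hμ v
            split_ifs with hv
            · rw [zero_mul]
              exact mul_nonneg hpv (hcnt0 v)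
            · exact mul_le_mul_of_nonneg_left (not_le.1 hv).le hpv
        _ ≤ ((A + 1) * H) * ε ^ 2 := hexp
        _ = _ := by ring
    exact le_of_mul_le_mul_right h6 (by positivity)

/-- Let `b ≥ 2`, `L` and `η > 0`, and let `v < b ^ k` be the random integer with `k` determinantal digits in base `b`
(`DetDigits b L η 0 k μ`). Let `y` be between `θ log k` and `K₁ log k` (`θ > 0` is arbitrary), `M` the
product of the primes `≤ y`, `|c| ≤ B b ^ k`, and let `x` be an integer with `b ^ k ≤ x k ^ C`, `x ≤ b ^ k k ^ C`, and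
`A, H ≤ k ^ J`. For `a ≤ A`, `1 ≤ h ≤ H` let `E_{a,h} = #{i ≤ x: p_i + 2 a i prime to M h} / (V y log b ^ k)`; this set has at
least `⌊x / (M h)⌋` elements. Up to a probability of at most `ε` all but at most `ε (A + 1) H` of the pairs `(a, h)`,
`0 ≤ a ≤ A`, `1 ≤ h ≤ H`, have the property: if `N_h = h M (c + κ v) > 0`, then the number of ALL `i ≤ x` such that
`p_i + 2 P(i)` is prime for the polynomial `P(i) = a i + N_h` differs from `E_{a,h}` by at most `ε E_{a,h}`. -/
theorem result : ∀ b L : ℕ, 2 ≤ b → ∀ η : ℝ, 0 < η → ∀ κ : ℤ, κ ≠ 0 →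
    ∀ (B J C K₁ : ℕ) (θ : ℝ), 0 < θ → ∀ ε : ℝ, 0 < ε → ε ≤ 1 → ∃ k₀ : ℕ, ∀ k : ℕ, k₀ ≤ k →
    ∀ μ : ℕ → ℝ, DetDigits b L η 0 k μ → ∀ y : ℕ, θ * Real.log k ≤ y → y ≤ K₁ * Real.log k →
    ∀ c : ℤ, |c| ≤ B * (b : ℤ) ^ k → ∀ A H : ℕ, A ≤ k ^ J → H ≤ k ^ J →
    ∀ x : ℕ, b ^ k ≤ x * k ^ C → x ≤ b ^ k * k ^ C →
      (∀ a h : ℕ, x / (primorial y * h) ≤ (Adm a (primorial y * h) x).card) ∧
      ∑ v ∈ range (b ^ k), (if (((range (A + 1) ×ˢ Icc 1 H).filter (fun z => ¬ (0 < Nv y z.2 c κ v →
          |((Good z.1 x (Nv y z.2 c κ v)).card : ℝ) - (Adm z.1 (primorial y * z.2) x).card / (V y * (k * Real.log b))| ≤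
            ε * ((Adm z.1 (primorial y * z.2) x).card / (V y * (k * Real.log b)))))).card : ℝ) ≤ ε * ((A + 1) * H)
        then 0 else μ v) ≤ ε := by
  intro b L hb η hη κ hκ B J C K₁ θ hθ ε hε hε1
  obtain ⟨k₀, h⟩ := main b L hb η hη κ hκ B J C K₁ θ hθ ε hε hε1
  refine ⟨k₀, fun k hk p hp y hy1 hy2 c hc A H hA hH x hx1 hx2 => ?_⟩
  obtain ⟨μ, hμ, hpμ⟩ := fam_dc hp
  have hle : ∀ v, p v ≤ μ v := fun v => by
    have h2 := (hpμ v).2
    rwa [pow_zero, one_mul] at h2
  obtain ⟨h1, h2⟩ := h k hk μ hμ y hy1 hy2 c hc A H hA hH x hx1 hx2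
  refine ⟨h1, le_trans (sum_le_sum fun v _ => ?_) h2⟩
  split_ifs
  · exact le_rfl
  · exact hle v

end Pool.Agent.Results.MP_3aaefc_nt.DeterminantalLinearPolynomials
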