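import Pool.Agent.N625.PT.X18
import Pool.Agent.Y877.SxI
import Pool.Agent.Run7.h927.SV.X11
import Pool.Agent.Run7.h927.SV.M

/-!
# The number of all `n ≤ x` with `p_n + 2 (a n + N)` prime: walks, nested words and random fields of digits

The random integer `v` has `k` digits in base `b`, and its digits (1) are the labels of a walk between two vertices of a
graph, which may be infinite, for example of the Cayley graph of a group (then these are the integers whose digits spell a
given element of the group; such a set can contain as few as `N ^ ε` integers below `N = b ^ k`), or (2) form a correctly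
nested word over an alphabet of opening, closing and neutral digits, or (3) form a Markov random field on an arbitrary
graph of positions of bounded degree.

Method: the exponential sums of these three kinds of distributions decay exponentially in the number of the good positions of
the frequency (starting files `Pool.Agent.N625.GW`, `Pool.Agent.N625.DY` of helper625, `Pool.Agent.N213.GF` of helper213;
put into this form in `Pool.Agent.Run7.h927.SV`). Hence the random integers are equidistributed in the classes modulo the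
products of primes which do not divide a fixed number, a sieve applies, and all the multiples have a thin large spectrum.
The argument of the starting files for digits whose blocks can be exchanged (`Pool.Agent.N625.PT.X1`, ..., helper625) then
carries over (`Pool.Agent.Run7.h927.SV.X2`, ...).

Examples of random fields, proved in `Pool.Agent.N213.GF.E` and `Pool.Agent.N213.GF.F`: the uniform distribution on the
solutions of local constraints with flexible digits on a graph of positions with degrees at most `Δ`, with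
`η = 1 / b ^ (Δ + 1)` (`unif_field`); in particular the integers whose nonzero digits form an independent set of the graph
(`indep_local`), and, for `b ≥ Δ + 2`, the integers whose digits are a proper colouring of the graph (`colour_local`).

`∑ v ∈ range (b ^ k), (if P v then 0 else μ v)` is the probability that the random integer `v < b ^ k` with the
distribution `μ` does not have the property `P`.
-/

set_option autoImplicit false

open Finset

namespace Pool.Agent.Results.MP_3aaefc_nt.DigitLawLinearPolynomials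

/-- The digits `a < b` act on the set `X` of the vertices: an edge with the label `a` leads from `x` to `y` if
`δ x a = some y` (at most one edge with the label `a` starts at `x`). The number of the edges from `x` to `y` equals the
number of the edges from `y` to `x`, and at least two edges start at every vertex. The graph may be infinite. -/
structure Graph {X : Type} (b : ℕ) (δ : X → ℕ → Option X) : Prop where
  symm : ∀ x y : X, {a : ℕ | a < b ∧ δ x a = some y}.ncard = {a : ℕ | a < b ∧ δ y a = some x}.ncard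
  two : ∀ x : X, ∃ a a' : ℕ, a < a' ∧ a' < b ∧ (δ x a).isSome ∧ (δ x a').isSome

open Classical in
/-- The integers `v < b ^ k` whose `k` digits in base `b`, from the most significant to the least significant one (the
digit number `i`, `0 ≤ i < k`, from the left is `v / b ^ (k - 1 - i) % b`), are the labels of a walk from `x` to `y`. -/
noncomputable def walks {X : Type} (b : ℕ) (δ : X → ℕ → Option X) (k : ℕ) (x y : X) : Finset ℕ :=
  (range (b ^ k)).filter fun v =>
    ((List.range k).map fun i => v / b ^ (k - 1 - i) % b).foldl (fun s a => s.bind fun z => δ z a) (some x) = some y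

/-- `P` is a set of pairs of an opening digit and a closing digit which match each other, `E` is a set of neutral
digits; the digits are smaller than `b`, no digit plays two of the three roles, and there is at least one pair.
(An opening digit can match several closing digits, and conversely.) -/
structure Alphabet (b : ℕ) (P : Finset (ℕ × ℕ)) (E : Finset ℕ) : Prop where
  lt : ∀ p ∈ P, p.1 < b ∧ p.2 < b
  ne : ∀ p ∈ P, ∀ p' ∈ P, p.1 ≠ p'.2
  neutral : ∀ a ∈ E, a < b ∧ ∀ p ∈ P, a ≠ p.1 ∧ a ≠ p.2
  nonempty : P.Nonempty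

/-- The correctly nested words: the empty word; a neutral digit followed by a correctly nested word; and `o u c w`,
where `u` and `w` are correctly nested words and the opening digit `o` matches the closing digit `c`. -/
inductive Balanced (P : Finset (ℕ × ℕ)) (E : Finset ℕ) : List ℕ → Prop
  | nil : Balanced P E []
  | neutral (a : ℕ) (w : List ℕ) : a ∈ E → Balanced P E w → Balanced P E (a :: w)
  | pair (o c : ℕ) (u w : List ℕ) : (o, c) ∈ P → Balanced P E u → Balanced P E w → Balanced P E (o :: (u ++ c :: w))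

open Classical in
/-- The integers `v < b ^ k` whose `k` digits in base `b`, from the most significant to the least significant one (the
digit number `i`, `0 ≤ i < k`, from the left is `v / b ^ (k - 1 - i) % b`), form a correctly nested word. -/
noncomputable def brackets (b : ℕ) (P : Finset (ℕ × ℕ)) (E : Finset ℕ) (k : ℕ) : Finset ℕ :=
  (range (b ^ k)).filter fun v => Balanced P E ((List.range k).map fun i => v / b ^ (k - 1 - i) % b)

/-- The digit of `v` at the position `i` in base `b` (the position `0` is the least significant one). -/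
def dig (b v i : ℕ) : ℕ := v / b ^ i % b

/-- The integer which has the digits of `v` at the positions in `S` and the digits of `w` at the other positions below `k`. -/
def splice (b k : ℕ) (S : Finset ℕ) (v w : ℕ) : ℕ := ∑ i ∈ range k, (if i ∈ S then dig b v i else dig b w i) * b ^ i

/-- `v` and `w` have the same digits outside the set `S` of positions. -/
def Off (b : ℕ) (S : Finset ℕ) (v w : ℕ) : Prop := ∀ i, i ∉ S → dig b v i = dig b w i

open Classical in
/-- The closed neighbourhood of the position `i` in the graph `A` on the positions `0, …, k - 1`. -/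
noncomputable def nb (k : ℕ) (A : ℕ → ℕ → Prop) (i : ℕ) : Finset ℕ := (range k).filter fun j => j = i ∨ A i j

open Classical in
/-- The total weight of the integers below `b ^ k` which have the same digits as `v` outside `S`. -/
noncomputable def mass (b k : ℕ) (p : ℕ → ℝ) (S : Finset ℕ) (v : ℕ) : ℝ :=
  ∑ w ∈ (range (b ^ k)).filter (fun w => Off b S w v), p w

/-- The digits of a random integer `v < b ^ k` (with the probabilities `p v`) form a Markov random field on a graph `A` of
positions with degrees at most `Δ` (the Markov property: for every set `S` of positions and all `v`, `w` which have the same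
digits at the positions outside `S` adjacent to `S`, the product `p v * p w` does not change if `v` and `w` exchange their
digits in `S`), and each digit is flexible: for every `v` with `p v ≠ 0` and every position `i`, there are `x` and `y` which
have the same digits as `v` outside the closed neighbourhood of `i`, which differ from each other exactly at the position
`i`, and whose conditional probabilities, given the digits outside this neighbourhood, are at least `η`. -/
structure Field (b k Δ : ℕ) (η : ℝ) (A : ℕ → ℕ → Prop) (p : ℕ → ℝ) : Prop where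
  symm : ∀ i j, A i j → A j i
  degree : ∀ i < k, (nb k A i).card ≤ Δ + 1
  nonneg : ∀ v, 0 ≤ p v
  sum : ∑ v ∈ range (b ^ k), p v = 1
  markov : ∀ S : Finset ℕ, ∀ v < b ^ k, ∀ w < b ^ k, (∀ i ∈ S, ∀ j < k, j ∉ S → A i j → dig b v j = dig b w j) →
    p v * p w = p (splice b k S v w) * p (splice b k S w v)
  flexible : ∀ v < b ^ k, p v ≠ 0 → ∀ i < k, ∃ x < b ^ k, ∃ y < b ^ k, Off b (nb k A i) x v ∧ Off b {i} y x ∧
    dig b y i ≠ dig b x i ∧ η * mass b k p (nb k A i) v ≤ p x ∧ η * mass b k p (nb k A i) v ≤ p y

open Classical in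
/-- The uniform distribution on the finite set `S`. -/
noncomputable def uniform (S : Finset ℕ) (v : ℕ) : ℝ := if v ∈ S then 1 / (S.card : ℝ) else 0

/-- The families of distributions of a random integer `v < b ^ k` which are considered here (`𝓕 k p` means that the
distribution `p` belongs to the family).
* `walks`: the uniform distribution on the integers whose `k` digits are the labels of a walk from `x₀` to some vertex `y`,
  where the number of the closed walks of length `2n` at `x₀` is at most `ρ ^ (2n)` for all `n`, and the number of the walks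
  of length `k` from `x₀` to `y` is at least `ρ ^ k / k ^ D` (all vertices `y` with this property are allowed);
* `words`: the uniform distribution on the integers whose `k` digits form a correctly nested word;
* `fields`: the digits form a Markov random field with flexible digits, on any graph of positions with degrees at most `Δ`. -/
inductive Law (b : ℕ) : (ℕ → (ℕ → ℝ) → Prop) → Prop
  | walks {X : Type} (δ : X → ℕ → Option X) (x₀ : X) (ρ : ℝ) (D : ℕ) : Graph b δ → 0 < ρ →
      (∀ n : ℕ, ((walks b δ (2 * n) x₀ x₀).card : ℝ) ≤ ρ ^ (2 * n)) →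
      Law b fun k p => ∃ y : X, ρ ^ k ≤ (k : ℝ) ^ D * (walks b δ k x₀ y).card ∧ p = uniform (walks b δ k x₀ y)
  | words (P : Finset (ℕ × ℕ)) (E : Finset ℕ) : Alphabet b P E →
      Law b fun k p => (brackets b P E k).Nonempty ∧ p = uniform (brackets b P E k)
  | fields (Δ : ℕ) (η : ℝ) : 2 ≤ b → 0 < η → Law b fun k p => ∃ A : ℕ → ℕ → Prop, Field b k Δ η A p


/-- the `n`-th prime, `n ≥ 1` -/
noncomputable def p (n : ℕ) : ℕ := Nat.nth Nat.Prime (n - 1)

/-- the product of `1 - 1/q` over the primes `q ≤ y` -/
noncomputable def V (y : ℕ) : ℝ := ∏ q ∈ (Icc 1 y).filter Nat.Prime, (1 - 1 / (q : ℝ))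

/-- the multiple of the product of the primes `≤ y` given by the integers `h` and `c + κ v` -/
def Nv (y h : ℕ) (c κ : ℤ) (v : ℕ) : ℤ := ((primorial y * h : ℕ) : ℤ) * (c + κ * v)

/-- the `1 ≤ i ≤ x` such that `p_i + 2 P(i)` is prime, for the linear polynomial `P(i) = a i + n` -/
noncomputable def Good (a x : ℕ) (n : ℤ) : Finset ℕ := (Icc 1 x).filter (fun i : ℕ => ((p i : ℤ) + 2 * (a * i + n)).toNat.Prime)

/-- the `1 ≤ i ≤ x` such that `p_i + 2 a i` is prime to `D` -/
noncomputable def Adm (a D x : ℕ) : Finset ℕ := (Icc 1 x).filter (fun i : ℕ => (p i + 2 * a * i).Coprime D)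

lemma p_lt (n : ℕ) (hn : 1 ≤ n) : n < p n := by
  unfold p
  have := Nat.add_two_le_nth_prime (n - 1)
  omega

lemma p_prime (n : ℕ) : (p n).Prime := Nat.prime_nth_prime _

lemma f_inj (a : ℕ) {m n : ℕ} (hm : 1 ≤ m) (hn : 1 ≤ n) (h : p m + 2 * a * m = p n + 2 * a * n) : m = n := by
  rcases lt_trichotomy m n with hlt | heq | hlt
  · exfalso
    have h1 : p m < p n := Nat.nth_strictMono Nat.infinite_setOf_prime (by omega)
    have h2 : 2 * a * m ≤ 2 * a * n := Nat.mul_le_mul_left _ hlt.le
    omega
  · exact heq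
  · exfalso
    have h1 : p n < p m := Nat.nth_strictMono Nat.infinite_setOf_prime (by omega)
    have h2 : 2 * a * n ≤ 2 * a * m := Nat.mul_le_mul_left _ hlt.le
    omega

lemma mult_adm (a D n : ℕ) (hn : 1 ≤ n) (hD : D ∣ n) : (p n + 2 * a * n).Coprime D := by
  by_contra hcop
  obtain ⟨q, hqp, hqa, hqb⟩ := Nat.Prime.not_coprime_iff_dvd.1 hcop
  have h1 : q ∣ n := hqb.trans hD
  have h2 : q ∣ p n := (Nat.dvd_add_left (h1.mul_left (2 * a))).1 hqa
  have h3 : q = p n := (Nat.prime_dvd_prime_iff_eq hqp (p_prime n)).1 h2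
  have h4 := Nat.le_of_dvd (by omega) h1
  have h5 := p_lt n hn
  omega

lemma adm_card (a D x : ℕ) : x / D ≤ (Adm a D x).card := by
  rw [← Nat.Ioc_filter_dvd_card_eq_div x D]
  apply card_le_card
  intro n hn
  rw [mem_filter, mem_Ioc] at hn
  unfold Adm
  rw [mem_filter, mem_Icc]
  exact ⟨⟨by omega, hn.1.2⟩, mult_adm a D n (by omega) hn.2⟩

lemma bal_iff (P : Finset (ℕ × ℕ)) (E : Finset ℕ) (w : List ℕ) : Balanced P E w ↔ Pool.Agent.N625.DY.Balanced P E w := by
  constructor
  · intro h
    induction h with
    | nil => exact .nil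
    | neutral a w h1 _ ih => exact .neutral a w h1 ih
    | pair o c u w h1 _ _ ih1 ih2 => exact .pair o c u w h1 ih1 ih2
  · intro h
    induction h with
    | nil => exact .nil
    | neutral a w h1 _ ih => exact .neutral a w h1 ih
    | pair o c u w h1 _ _ ih1 ih2 => exact .pair o c u w h1 ih1 ih2

lemma brackets_eq (b : ℕ) (P : Finset (ℕ × ℕ)) (E : Finset ℕ) (k : ℕ) :
    brackets b P E k = Pool.Agent.N625.DY.brackets b P E k := by
  classical
  unfold brackets Pool.Agent.N625.DY.brackets Pool.Agent.N625.DY.word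
  ext v
  rw [mem_filter, mem_filter, bal_iff]

lemma field_conv {b k Δ : ℕ} {η : ℝ} {A : ℕ → ℕ → Prop} {p : ℕ → ℝ} (h : Field b k Δ η A p) :
    Pool.Agent.N213.GF.Field b k Δ η A p :=
  ⟨h.symm, h.degree, h.nonneg, h.sum, h.markov, h.flexible⟩

theorem siev_of {b : ℕ} {𝓕 : ℕ → (ℕ → ℝ) → Prop} (h : Law b 𝓕) : ∃ L, Pool.Agent.Run7.h927.SV.Siev b L 𝓕 := by
  rcases h with ⟨δ, x₀, ρ, D, hG, hρ, hR⟩ | ⟨P, E, hA⟩ | ⟨Δ, η, hb, hη⟩
  · refine Pool.Agent.Run7.h927.SV.w_siev (δ := δ) ⟨hG.symm, hG.two⟩ x₀ ρ hρ hR D _ ?_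
    rintro k p ⟨y, h1, rfl⟩
    exact ⟨y, h1, rfl⟩
  · have hA' : Pool.Agent.N625.DY.Alphabet b P E := ⟨hA.lt, hA.ne, hA.neutral, hA.nonempty⟩
    refine Pool.Agent.Run7.h927.SV.br_siev hA' _ ?_
    rintro k p ⟨h1, rfl⟩
    rw [brackets_eq] at h1 ⊢
    refine ⟨?_, rfl⟩
    by_contra h2
    rw [Pool.Agent.N625.DY.br_empty k h2] at h1
    exact Finset.not_nonempty_empty h1
  · refine Pool.Agent.Run7.h927.SV.gf_siev b Δ η hb hη _ ?_
    rintro k p ⟨A, hF⟩
    exact ⟨A, field_conv hF⟩

open Classical in
/-- Let `𝓕` be one of the families of distributions in `Law b` (digits which label walks in a graph; correctly nested words;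
Markov random fields), let `v < b ^ k` be a random integer whose distribution `μ` belongs to the family, let `y` be between
`θ log k` and `K₁ log k` (`θ > 0` is arbitrary), `M` the product of the primes `≤ y`, `|c| ≤ B b ^ k`, and let `x` be an
integer with `b ^ k ≤ x k ^ C`, `x ≤ b ^ k k ^ C`, and `A, H ≤ k ^ J`. For `a ≤ A`, `1 ≤ h ≤ H` let
`E_{a,h} = #{i ≤ x: p_i + 2 a i prime to M h} / (V y log b ^ k)`; this set has at least `⌊x / (M h)⌋` elements. With a
probability of at least `1 - ε` all but at most `ε (A + 1) H` of the pairs `(a, h)`, `0 ≤ a ≤ A`, `1 ≤ h ≤ H`, have the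
property: if `N_h = h M (c + κ v) > 0`, then the number of ALL `i ≤ x` such that `p_i + 2 P(i)` is prime for the polynomial
`P(i) = a i + N_h` differs from `E_{a,h}` by at most `ε E_{a,h}`. -/
theorem result : ∀ (b : ℕ) (𝓕 : ℕ → (ℕ → ℝ) → Prop), Law b 𝓕 → ∀ κ : ℤ, κ ≠ 0 →
    ∀ (B J C K₁ : ℕ) (θ : ℝ), 0 < θ → ∀ ε : ℝ, 0 < ε → ε ≤ 1 → ∃ k₀ : ℕ, ∀ k : ℕ, k₀ ≤ k →
    ∀ μ : ℕ → ℝ, 𝓕 k μ → ∀ y : ℕ, θ * Real.log k ≤ y → y ≤ K₁ * Real.log k →
    ∀ c : ℤ, |c| ≤ B * (b : ℤ) ^ k → ∀ A H : ℕ, A ≤ k ^ J → H ≤ k ^ J →
    ∀ x : ℕ, b ^ k ≤ x * k ^ C → x ≤ b ^ k * k ^ C →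
      (∀ a h : ℕ, x / (primorial y * h) ≤ (Adm a (primorial y * h) x).card) ∧
      ∑ v ∈ range (b ^ k), (if (((range (A + 1) ×ˢ Icc 1 H).filter (fun z => ¬ (0 < Nv y z.2 c κ v →
          |((Good z.1 x (Nv y z.2 c κ v)).card : ℝ) - (Adm z.1 (primorial y * z.2) x).card / (V y * (k * Real.log b))| ≤
            ε * ((Adm z.1 (primorial y * z.2) x).card / (V y * (k * Real.log b)))))).card : ℝ) ≤ ε * ((A + 1) * H)
        then 0 else μ v) ≤ ε := by
  classical
  intro b 𝓕 hF κ hκ B J C K₁ θ hθ ε hε hε1
  obtain ⟨L, hsv⟩ := siev_of hF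
  have hb := hsv.two
  have hε2 : ε ^ 2 ≤ ε := by nlinarith
  obtain ⟨k₀, h0⟩ := Pool.Agent.Run7.h927.SV.law2 hsv (2 * κ) (mul_ne_zero two_ne_zero hκ) (2 * B) J
    (2 * K₁ + 2 * J + 6) (C + J + 5) K₁ θ hθ (ε ^ 2) (by positivity) (hε2.trans hε1)
  obtain ⟨k₁, h1⟩ := Pool.Agent.N625.PT.X_large b C hb
  obtain ⟨k₂, h2⟩ := Pool.Agent.N625.PT.log_X b C hb
  obtain ⟨k₃, h3⟩ := Pool.Agent.N625.PT.pow_le_pow_digits b hb (2 * K₁ + J + C)
  obtain ⟨n4, hn4⟩ := Pool.Agent.Y877.SX.nth_le_log
  refine ⟨max (max k₀ k₁) (max (max k₂ k₃) (max 5 n4)), fun k hk μ hμ y hy1 hy2 c hc A H hA hH x hx1 hx2 =>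
    ⟨fun a h => adm_card a _ x, ?_⟩⟩
  have b4 : 5 ≤ k := by omega
  have hkr : (5 : ℝ) ≤ k := by exact_mod_cast b4
  have hk0 : (0 : ℝ) < k := by linarith
  have hkx := h1 k (by omega) x hx1
  have hlx := h2 k (by omega) x hx2
  have hk3 := h3 k (by omega)
  have hln : 0 ≤ Real.log x := Real.log_natCast_nonneg x
  have hx0 : (0 : ℝ) ≤ x := Nat.cast_nonneg x
  have hbigx : k ^ (2 * K₁ + J) ≤ x := by
    have : k ^ (2 * K₁ + J) * k ^ C ≤ x * k ^ C := by
      rw [← pow_add]
      exact hk3.trans hx1
    exact Nat.le_of_mul_le_mul_right this (by positivity)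
  have hX1 : b ^ k ≤ (x * k ^ (J + 5)) * k ^ (C + J + 5) := by
    refine hx1.trans ?_
    rw [mul_assoc, ← pow_add]
    exact Nat.mul_le_mul_left _ (Nat.pow_le_pow_right (by omega) (by omega))
  have hX2 : x * k ^ (J + 5) ≤ b ^ k * k ^ (C + J + 5) := by
    calc x * k ^ (J + 5) ≤ (b ^ k * k ^ C) * k ^ (J + 5) := Nat.mul_le_mul_right _ hx2
      _ = _ := by rw [mul_assoc, ← pow_add, add_assoc]
  have hp : ∀ n : ℕ, n ≤ x → p n ≤ x * k ^ 4 := by
    intro n hn
    have g1 : ((p n : ℕ) : ℝ) ≤ x * (k : ℝ) ^ 4 := by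
      refine (hn4 x (by omega) (n - 1) (by omega)).trans ?_
      apply mul_le_mul_of_nonneg_left _ hx0
      calc Real.log x ^ 2 ≤ ((k : ℝ) ^ 2) ^ 2 := pow_le_pow_left₀ hln hlx _
        _ = (k : ℝ) ^ 4 := by rw [← pow_mul]
    exact_mod_cast g1
  have hf : ∀ a n : ℕ, a ≤ A → n ≤ x → p n + 2 * a * n ≤ x * k ^ (J + 5) := by
    intro a n ha hn
    have g1 : 2 * a * n ≤ 2 * k ^ J * x := Nat.mul_le_mul (Nat.mul_le_mul_left 2 (ha.trans hA)) hn
    have g2 := hp n hn
    have g3 : k ^ 4 + 2 * k ^ J ≤ k ^ (J + 5) := by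
      have e1 : 1 ≤ k ^ J := Nat.one_le_pow _ _ (by omega)
      have e2 : 1 ≤ k ^ 4 := Nat.one_le_pow _ _ (by omega)
      have e3 : k ^ (J + 5) = k ^ J * (k ^ 4 * k) := by ring
      rw [e3]
      calc k ^ 4 + 2 * k ^ J ≤ k ^ J * k ^ 4 + 2 * (k ^ J * k ^ 4) := by nlinarith
        _ = k ^ J * (k ^ 4 * 3) := by ring
        _ ≤ _ := Nat.mul_le_mul_left _ (Nat.mul_le_mul_left _ (by omega))
    calc p n + 2 * a * n ≤ x * k ^ 4 + 2 * k ^ J * x := by omega
      _ = x * (k ^ 4 + 2 * k ^ J) := by ring
      _ ≤ _ := Nat.mul_le_mul_left _ g3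
  obtain ⟨Bd, hBd⟩ : ∃ Bd : ℕ × ℕ → ℕ → Prop, ∀ z v, Bd z v ↔ (0 < Nv y z.2 c κ v ∧
    ε * ((Adm z.1 (primorial y * z.2) x).card / (V y * (k * Real.log b))) <
    |((Good z.1 x (Nv y z.2 c κ v)).card : ℝ) - (Adm z.1 (primorial y * z.2) x).card / (V y * (k * Real.log b))|) := ⟨_, fun _ _ => Iff.rfl⟩
  have hVy : 0 < V y := Pool.Agent.H373R2.T7.Vz_pos y
  have hlogb : 0 ≤ Real.log b := Real.log_natCast_nonneg b
  have key : ∀ z ∈ range (A + 1) ×ˢ Icc 1 H, ∑ v ∈ range (b ^ k), (if Bd z v then μ v else 0) ≤ ε ^ 2 := by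
    intro z hz
    obtain ⟨a, h⟩ := z
    rw [mem_product, mem_range, mem_Icc] at hz
    obtain ⟨haA, hh1, hhH⟩ := hz
    simp only at haA hh1 hhH
    have haA' : a ≤ A := by omega
    obtain ⟨D, hD⟩ : ∃ D, D = primorial y * h := ⟨_, rfl⟩
    have hD1 : 1 ≤ D := by rw [hD]; exact Nat.mul_pos (primorial_pos y) hh1
    have hDk : D ≤ k ^ (2 * K₁ + J) := by
      rw [hD]
      exact Pool.Agent.N625.PT.mult_small K₁ J k y h (by omega) hy2 (hhH.trans hH)
    have hDx : D ≤ x := hDk.trans hbigx
    obtain ⟨S, hS⟩ : ∃ S, S = Adm a (primorial y * h) x := ⟨_, rfl⟩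
    have hden : (x : ℝ) ≤ S.card * (k : ℝ) ^ (2 * K₁ + J + 1) := by
      have g1 : x / D ≤ S.card := by rw [hS, hD]; exact adm_card a _ x
      have g2 : x ≤ 2 * (x / D * D) := by
        have e1 := Nat.div_add_mod x D
        have e2 : x % D < D := Nat.mod_lt _ (by omega)
        have e3 : 1 ≤ x / D := (Nat.one_le_div_iff (by omega)).2 hDx
        have e4 : D ≤ x / D * D := Nat.le_mul_of_pos_left _ e3
        have e5 : D * (x / D) = x / D * D := by ring
        omega
      have g3 : x ≤ S.card * k ^ (2 * K₁ + J + 1) := by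
        calc x ≤ 2 * (x / D * D) := g2
          _ ≤ 2 * (S.card * k ^ (2 * K₁ + J)) := Nat.mul_le_mul_left 2 (Nat.mul_le_mul g1 hDk)
          _ = S.card * (k ^ (2 * K₁ + J) * 2) := by ring
          _ ≤ S.card * (k ^ (2 * K₁ + J) * k) := Nat.mul_le_mul_left _ (Nat.mul_le_mul_left _ (by omega))
          _ = _ := by rw [← pow_succ]
      exact_mod_cast g3
    have hS1 : ∀ n ∈ S, 1 ≤ n ∧ n ≤ x ∧ (p n + 2 * a * n).Coprime (primorial y * h) := by
      intro n hn
      rw [hS] at hn
      unfold Adm at hn
      rw [mem_filter, mem_Icc] at hn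
      exact ⟨hn.1.1, hn.1.2, hn.2⟩
    obtain ⟨S', hS'⟩ : ∃ S', S' = S.image (fun n : ℕ => p n + 2 * a * n) := ⟨_, rfl⟩
    have hinj : Set.InjOn (fun n : ℕ => p n + 2 * a * n) S := fun m hm n hn hmn =>
      f_inj a (hS1 m (by exact_mod_cast hm)).1 (hS1 n (by exact_mod_cast hn)).1 hmn
    have hcard : S'.card = S.card := by rw [hS']; exact card_image_of_injOn hinj
    have hc2 : |2 * c| ≤ ((2 * B : ℕ) : ℤ) * (b : ℤ) ^ k := by
      rw [abs_mul]
      push_cast
      have : |(2 : ℤ)| = 2 := rfl
      rw [this]
      linarith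
    have h5 := h0 k (by omega) μ hμ y hy1 hy2 (2 * c) hc2 h hh1 (hhH.trans hH) (x * k ^ (J + 5)) hX1 hX2 S' (by
        intro s hs
        rw [hS', mem_image] at hs
        obtain ⟨n, hn, rfl⟩ := hs
        have g1 := hS1 n hn
        rw [mem_Icc]
        exact ⟨by have := (p_prime n).pos; omega, hf a n haA' g1.2.1⟩) (by
        intro s hs
        rw [hS', mem_image] at hs
        obtain ⟨n, hn, rfl⟩ := hs
        exact (hS1 n hn).2.2) (by
        rw [hcard]
        push_cast
        calc (x : ℝ) * (k : ℝ) ^ (J + 5) ≤ (S.card * (k : ℝ) ^ (2 * K₁ + J + 1)) * (k : ℝ) ^ (J + 5) :=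
              mul_le_mul_of_nonneg_right hden (by positivity)
          _ = _ := by rw [mul_assoc, ← pow_add]; congr 2; omega) 1 (Or.inl rfl)
    refine le_trans (sum_le_sum fun v _ => ?_) h5
    have hpv := (hsv.nonneg k μ hμ) v
    by_cases hq : Bd (a, h) v
    · rw [if_pos hq, if_pos]
      rw [hBd] at hq
      simp only at hq
      rw [← hS] at hq
      obtain ⟨q1, q2⟩ := hq
      have hNv : ((primorial y * h : ℕ) : ℤ) * (2 * c + 2 * κ * (v : ℕ)) = 2 * Nv y h c κ v := by
        unfold Nv
        ring
      refine ⟨fun s hs => ?_, ?_⟩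
      · rw [hNv]
        have : (0 : ℤ) ≤ (s : ℤ) := Int.natCast_nonneg s
        linarith
      · have e1 : (S'.filter (fun s : ℕ => (((primorial y * h : ℕ) : ℤ) * (2 * c + 2 * κ * (v : ℕ)) + 1 * (s : ℕ)).toNat.Prime)).card =
            (Good a x (Nv y h c κ v)).card := by
          rw [hS', filter_image, card_image_of_injOn (hinj.mono (by
            intro i hi
            rw [mem_coe, mem_filter] at hi
            exact_mod_cast hi.1))]
          unfold Good
          congr 1
          ext n
          rw [mem_filter, mem_filter, mem_Icc]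
          have e : ∀ n : ℕ, 2 * Nv y h c κ v + 1 * ((p n + 2 * a * n : ℕ) : ℤ) = (p n : ℤ) + 2 * (a * n + Nv y h c κ v) := by
            intro n
            push_cast
            ring
          constructor
          · rintro ⟨hn, hpr⟩
            have g1 := hS1 n hn
            rw [hNv, e n] at hpr
            exact ⟨⟨g1.1, g1.2.1⟩, hpr⟩
          · rintro ⟨⟨g1, g2⟩, g4⟩
            have hnS : n ∈ S := by
              rw [hS]
              unfold Adm
              rw [mem_filter, mem_Icc]
              refine ⟨⟨g1, g2⟩, ?_⟩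
              by_contra hcop
              obtain ⟨q, hqp, hqa, hqb⟩ := Nat.Prime.not_coprime_iff_dvd.1 hcop
              -- `q` divides the prime
              have f1 : (q : ℤ) ∣ (p n : ℤ) + 2 * (a * n + Nv y h c κ v) := by
                rw [← e n]
                apply dvd_add
                · apply Dvd.dvd.mul_left
                  unfold Nv
                  exact (by exact_mod_cast hqb : (q : ℤ) ∣ ((primorial y * h : ℕ) : ℤ)).mul_right _
                · rw [one_mul]
                  exact_mod_cast hqa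
              have f0 : (0 : ℤ) ≤ (p n : ℤ) := Int.natCast_nonneg _
              have f0' : (0 : ℤ) ≤ (a : ℤ) * n := by positivity
              have f2 : (0 : ℤ) < (p n : ℤ) + 2 * (a * n + Nv y h c κ v) := by linarith
              have f3 : q ∣ ((p n : ℤ) + 2 * (a * n + Nv y h c κ v)).toNat := by
                rw [← Int.natCast_dvd_natCast, Int.toNat_of_nonneg f2.le]
                exact f1
              have f4 := (Nat.prime_dvd_prime_iff_eq hqp g4).1 f3
              have f5 : q ≤ primorial y * h := Nat.le_of_dvd (Nat.mul_pos (primorial_pos y) hh1) hqb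
              have f6 : ((primorial y * h : ℕ) : ℤ) ≤ Nv y h c κ v := by
                apply Int.le_of_dvd q1
                unfold Nv
                exact dvd_mul_right _ _
              have f7 : (q : ℤ) = (p n : ℤ) + 2 * (a * n + Nv y h c κ v) := by
                rw [f4, Int.toNat_of_nonneg f2.le]
              have f8 : (q : ℤ) ≤ ((primorial y * h : ℕ) : ℤ) := by exact_mod_cast f5
              linarith
            refine ⟨hnS, ?_⟩
            rw [hNv, e n]
            exact g4
        rw [e1, hcard]
        refine lt_of_le_of_lt ?_ q2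
        apply mul_le_mul_of_nonneg_right hε2
        exact div_nonneg (Nat.cast_nonneg _) (mul_nonneg hVy.le (mul_nonneg hk0.le hlogb))
    · rw [if_neg hq]
      split_ifs
      · exact hpv
      · exact le_rfl
  -- Markov
  obtain ⟨cnt, hcnt⟩ : ∃ cnt : ℕ → ℝ, ∀ v, cnt v = (((range (A + 1) ×ˢ Icc 1 H).filter (fun z => Bd z v)).card : ℝ) := ⟨_, fun _ => rfl⟩
  have hcnt0 : ∀ v, 0 ≤ cnt v := fun v => by rw [hcnt]; exact Nat.cast_nonneg _
  have hset : ∀ v, (((range (A + 1) ×ˢ Icc 1 H).filter (fun z => ¬ (0 < Nv y z.2 c κ v →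
          |((Good z.1 x (Nv y z.2 c κ v)).card : ℝ) - (Adm z.1 (primorial y * z.2) x).card / (V y * (k * Real.log b))| ≤
            ε * ((Adm z.1 (primorial y * z.2) x).card / (V y * (k * Real.log b)))))).card : ℝ) = cnt v := by
    intro v
    rw [hcnt]
    congr 2
    apply filter_congr
    intro z _
    rw [hBd]
    push Not
    rfl
  have hexp : ∑ v ∈ range (b ^ k), μ v * cnt v ≤ ((A + 1) * H) * ε ^ 2 := by
    have e1 : ∀ v, μ v * cnt v = ∑ z ∈ range (A + 1) ×ˢ Icc 1 H, (if Bd z v then μ v else 0) := by
      intro v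
      rw [hcnt, card_eq_sum_ones, Nat.cast_sum, sum_filter, mul_sum]
      apply sum_congr rfl
      intro z _
      split_ifs <;> simp
    simp_rw [e1]
    rw [sum_comm]
    refine (sum_le_sum key).trans (le_of_eq ?_)
    rw [sum_const, card_product, card_range, Nat.card_Icc, nsmul_eq_mul, Nat.add_sub_cancel]
    push_cast
    ring
  simp_rw [hset]
  rcases Nat.eq_zero_or_pos H with hH0 | hH0
  · refine le_trans (le_of_eq ?_) hε.le
    apply sum_eq_zero
    intro v _
    rw [if_pos]
    rw [hcnt, hH0]
    simp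
  · have hHr : (0 : ℝ) < H := by exact_mod_cast hH0
    have hAr : (0 : ℝ) < (A : ℝ) + 1 := by positivity
    have h6 : (∑ v ∈ range (b ^ k), (if cnt v ≤ ε * ((A + 1) * H) then 0 else μ v)) * (ε * ((A + 1) * H)) ≤ ε * (ε * ((A + 1) * H)) := by
      calc (∑ v ∈ range (b ^ k), (if cnt v ≤ ε * ((A + 1) * H) then 0 else μ v)) * (ε * ((A + 1) * H)) ≤ ∑ v ∈ range (b ^ k), μ v * cnt v := by
            rw [sum_mul]
            apply sum_le_sum
            intro v _
            have hpv := (hsv.nonneg k μ hμ) v
            split_ifs with hv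
            · rw [zero_mul]
              exact mul_nonneg hpv (hcnt0 v)
            · exact mul_le_mul_of_nonneg_left (not_le.1 hv).le hpv
        _ ≤ ((A + 1) * H) * ε ^ 2 := hexp
        _ = _ := by ring
    exact le_of_mul_le_mul_right h6 (by positivity)

end Pool.Agent.Results.MP_3aaefc_nt.DigitLawLinearPolynomials
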