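import Pool.Agent.N625.PT.X18
import Pool.Agent.Y877.SxI
import Pool.Agent.Run7.h672.XC.X18
import Pool.Agent.Run7.h844.RP.PwR2

/-!
# The number of all `n ≤ x` with `p_n + 2 (a n + N)` prime, for almost all slopes `a` and almost all multiples `N` of the values
of generalised polynomials at primes

Method: exponential sums over primes with the phase of a generalised polynomial: derivative bounds uniform in the
coefficients, van der Corput differencing of all orders, bilinear sums, Vaughan's identity (after `Pool.Agent.H895R3.NK`,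
`Pool.Agent.H373R2.T7`), with a power saving at all frequencies up to a power, and a discrete Fejér kernel for the passage to
the integer parts (library `Pool.Agent.Run7.h844.RP`). With this input the sieve and the circle method for classes of laws with
small exponential sums (`Pool.Agent.N625.PT`, `Pool.Agent.Run7.h672.XC`) go through.
-/

set_option autoImplicit false

open Finset

namespace Pool.Agent.Results.MP_3aaefc_nt.ValuesAtPrimes

/-- The generalised polynomial `∑ a x * t ^ x`, `x ∈ F`, with real exponents and coefficients. -/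
noncomputable def genPoly (F : Finset ℝ) (a : ℝ → ℝ) (t : ℝ) : ℝ := ∑ x ∈ F, a x * t ^ x

/-- `c` is the largest exponent; it is positive and not an integer, and its coefficient is not zero. -/
def Leading (F : Finset ℝ) (a : ℝ → ℝ) (c : ℝ) : Prop :=
  c ∈ F ∧ (∀ x ∈ F, x ≤ c) ∧ 0 < c ∧ (∀ m : ℕ, c ≠ m) ∧ a c ≠ 0

/-- the `n`-th prime, `n ≥ 1` -/
noncomputable def p (n : ℕ) : ℕ := Nat.nth Nat.Prime (n - 1)

/-- the product of `1 - 1/q` over the primes `q ≤ y` -/
noncomputable def V (y : ℕ) : ℝ := ∏ q ∈ (Icc 1 y).filter Nat.Prime, (1 - 1 / (q : ℝ))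

/-- the multiple of the product of the primes `≤ y` given by the integers `h` and `w` -/
def Nw (y h : ℕ) (w : ℤ) : ℤ := ((primorial y * h : ℕ) : ℤ) * w

/-- the multiple of the product of the primes `≤ y` given by the integers `h` and `c + κ v` -/
def Nv (y h : ℕ) (c κ : ℤ) (v : ℕ) : ℤ := ((primorial y * h : ℕ) : ℤ) * (c + κ * v)

/-- the `1 ≤ i ≤ x` such that `p_i + 2 P(i)` is prime, for the linear polynomial `P(i) = a i + n` -/
noncomputable def Good (a x : ℕ) (n : ℤ) : Finset ℕ := (Icc 1 x).filter (fun i : ℕ => ((p i : ℤ) + 2 * (a * i + n)).toNat.Prime)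

/-- the `1 ≤ i ≤ x` such that `p_i + 2 a i` is prime to `D` -/
noncomputable def Adm (a D x : ℕ) : Finset ℕ := (Icc 1 x).filter (fun i : ℕ => (p i + 2 * a * i).Coprime D)

lemma p_lt (n : ℕ) (hn : 1 ≤ n) : n < p n := by
  unfold p
  have := Nat.add_two_le_nth_prime (n - 1)
  omega

lemma p_prime (n : ℕ) : (p n).Prime := Nat.prime_nth_prime _

lemma f_inj (a : ℕ) {m n : ℕ} (hm : 1 ≤ m) (hn : 1 ≤ n) (h : p m + 2 * a * m = p n + 2 * a * n) : m = n := by
  rcases lt_trichotomy m n with hlt | heq | hlt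
  · exfalso
    have h1 : p m < p n := Nat.nth_strictMono Nat.infinite_setOfPred_prime (by omega)
    have h2 : 2 * a * m ≤ 2 * a * n := Nat.mul_le_mul_left _ hlt.le
    omega
  · exact heq
  · exfalso
    have h1 : p n < p m := Nat.nth_strictMono Nat.infinite_setOfPred_prime (by omega)
    have h2 : 2 * a * n ≤ 2 * a * m := Nat.mul_le_mul_left _ hlt.le
    omega

lemma mult_adm (a D n : ℕ) (hn : 1 ≤ n) (hD : D ∣ n) : (p n + 2 * a * n).Coprime D := by
  by_contra hcop
  obtain ⟨q, hqp, hqa, hqb⟩ := Nat.Prime.not_coprime_iff_dvd.1 hcop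
  have h1 : q ∣ n := hqb.trans hD
  have h2 : q ∣ p n := (Nat.dvd_add_left (h1.mul_left (2 * a))).1 hqa
  have h3 : q = p n := (Nat.prime_dvd_prime_iff_eq hqp (p_prime n)).1 h2
  have h4 := Nat.le_of_dvd (by omega) h1
  have h5 := p_lt n hn
  omega

lemma adm_card (a D x : ℕ) : x / D ≤ (Adm a D x).card := by
  rw [← Nat.Ioc_filter_dvd_card_eq_div x D]
  apply card_le_card
  intro n hn
  rw [mem_filter, mem_Ioc] at hn
  unfold Adm
  rw [mem_filter, mem_Icc]
  exact ⟨⟨by omega, hn.1.2⟩, mult_adm a D n (by omega) hn.2⟩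

set_option maxHeartbeats 4000000 in
theorem core {b L T : ℕ} {𝒞 : ℕ → (ℕ → ℝ) → Prop} (hcls : Pool.Agent.Run7.h672.XC.RCls b L T 𝒞) : ∀ κ : ℤ, κ ≠ 0 →
    ∀ (B J C K₁ : ℕ) (θ : ℝ), 0 < θ → ∀ ε : ℝ, 0 < ε → ε ≤ 1 → ∃ k₀ : ℕ, ∀ k : ℕ, k₀ ≤ k →
    ∀ μ : ℕ → ℝ, 𝒞 k μ → ∀ y : ℕ, θ * Real.log k ≤ y → y ≤ K₁ * Real.log k →
    ∀ c : ℤ, |c| ≤ B * (b : ℤ) ^ k → ∀ A H : ℕ, A ≤ k ^ J → H ≤ k ^ J →
    ∀ x : ℕ, b ^ k ≤ x * k ^ C → x ≤ b ^ k * k ^ C →
      (∀ a h : ℕ, x / (primorial y * h) ≤ (Adm a (primorial y * h) x).card) ∧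
      ∑ v ∈ range (b ^ k), (if (((range (A + 1) ×ˢ Icc 1 H).filter (fun z => ¬ (0 < Nv y z.2 c κ v →
          |((Good z.1 x (Nv y z.2 c κ v)).card : ℝ) - (Adm z.1 (primorial y * z.2) x).card / (V y * (k * Real.log b))| ≤
            ε * ((Adm z.1 (primorial y * z.2) x).card / (V y * (k * Real.log b)))))).card : ℝ) ≤ ε * ((A + 1) * H)
        then 0 else μ v) ≤ ε := by
  classical
  intro κ hκ B J C K₁ θ hθ ε hε hε1
  have hb := hcls.two
  have hε2 : ε ^ 2 ≤ ε := by nlinarith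
  obtain ⟨k₀, h0⟩ := Pool.Agent.Run7.h672.XC.law2 hcls (2 * κ) (mul_ne_zero two_ne_zero hκ) (2 * B) J
    (2 * K₁ + 2 * J + 6) (C + J + 5) K₁ θ hθ (ε ^ 2) (by positivity) (hε2.trans hε1)
  obtain ⟨k₁, h1⟩ := Pool.Agent.N625.PT.X_large b C hb
  obtain ⟨k₂, h2⟩ := Pool.Agent.N625.PT.log_X b C hb
  obtain ⟨k₃, h3⟩ := Pool.Agent.N625.PT.pow_le_pow_digits b hb (2 * K₁ + J + C)
  obtain ⟨n4, hn4⟩ := Pool.Agent.Y877.SX.nth_le_log
  refine ⟨max (max k₀ k₁) (max (max k₂ k₃) (max 5 n4)), fun k hk μ hμ y hy1 hy2 c hc A H hA hH x hx1 hx2 =>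
    ⟨fun a h => adm_card a _ x, ?_⟩⟩
  have b4 : 5 ≤ k := by omega
  have hkr : (5 : ℝ) ≤ k := by exact_mod_cast b4
  have hk0 : (0 : ℝ) < k := by linarith
  have hkx := h1 k (by omega) x hx1
  have hlx := h2 k (by omega) x hx2
  have hk3 := h3 k (by omega)
  have hln : 0 ≤ Real.log x := Real.log_natCast_nonneg x
  have hx0 : (0 : ℝ) ≤ x := Nat.cast_nonneg x
  have hbigx : k ^ (2 * K₁ + J) ≤ x := by
    have : k ^ (2 * K₁ + J) * k ^ C ≤ x * k ^ C := by
      rw [← pow_add]
      exact hk3.trans hx1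
    exact Nat.le_of_mul_le_mul_right this (by positivity)
  have hX1 : b ^ k ≤ (x * k ^ (J + 5)) * k ^ (C + J + 5) := by
    refine hx1.trans ?_
    rw [mul_assoc, ← pow_add]
    exact Nat.mul_le_mul_left _ (Nat.pow_le_pow_right (by omega) (by omega))
  have hX2 : x * k ^ (J + 5) ≤ b ^ k * k ^ (C + J + 5) := by
    calc x * k ^ (J + 5) ≤ (b ^ k * k ^ C) * k ^ (J + 5) := Nat.mul_le_mul_right _ hx2
      _ = _ := by rw [mul_assoc, ← pow_add, add_assoc]
  have hp : ∀ n : ℕ, n ≤ x → p n ≤ x * k ^ 4 := by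
    intro n hn
    have g1 : ((p n : ℕ) : ℝ) ≤ x * (k : ℝ) ^ 4 := by
      refine (hn4 x (by omega) (n - 1) (by omega)).trans ?_
      apply mul_le_mul_of_nonneg_left _ hx0
      calc Real.log x ^ 2 ≤ ((k : ℝ) ^ 2) ^ 2 := pow_le_pow_left₀ hln hlx _
        _ = (k : ℝ) ^ 4 := by rw [← pow_mul]
    exact_mod_cast g1
  have hf : ∀ a n : ℕ, a ≤ A → n ≤ x → p n + 2 * a * n ≤ x * k ^ (J + 5) := by
    intro a n ha hn
    have g1 : 2 * a * n ≤ 2 * k ^ J * x := Nat.mul_le_mul (Nat.mul_le_mul_left 2 (ha.trans hA)) hn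
    have g2 := hp n hn
    have g3 : k ^ 4 + 2 * k ^ J ≤ k ^ (J + 5) := by
      have e1 : 1 ≤ k ^ J := Nat.one_le_pow _ _ (by omega)
      have e2 : 1 ≤ k ^ 4 := Nat.one_le_pow _ _ (by omega)
      have e3 : k ^ (J + 5) = k ^ J * (k ^ 4 * k) := by ring
      rw [e3]
      calc k ^ 4 + 2 * k ^ J ≤ k ^ J * k ^ 4 + 2 * (k ^ J * k ^ 4) := by nlinarith
        _ = k ^ J * (k ^ 4 * 3) := by ring
        _ ≤ _ := Nat.mul_le_mul_left _ (Nat.mul_le_mul_left _ (by omega))
    calc p n + 2 * a * n ≤ x * k ^ 4 + 2 * k ^ J * x := by omega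
      _ = x * (k ^ 4 + 2 * k ^ J) := by ring
      _ ≤ _ := Nat.mul_le_mul_left _ g3
  obtain ⟨Bd, hBd⟩ : ∃ Bd : ℕ × ℕ → ℕ → Prop, ∀ z v, Bd z v ↔ (0 < Nv y z.2 c κ v ∧
    ε * ((Adm z.1 (primorial y * z.2) x).card / (V y * (k * Real.log b))) <
    |((Good z.1 x (Nv y z.2 c κ v)).card : ℝ) - (Adm z.1 (primorial y * z.2) x).card / (V y * (k * Real.log b))|) := ⟨_, fun _ _ => Iff.rfl⟩
  have hVy : 0 < V y := Pool.Agent.H373R2.T7.Vz_pos y
  have hlogb : 0 ≤ Real.log b := Real.log_natCast_nonneg b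
  have key : ∀ z ∈ range (A + 1) ×ˢ Icc 1 H, ∑ v ∈ range (b ^ k), (if Bd z v then μ v else 0) ≤ ε ^ 2 := by
    intro z hz
    obtain ⟨a, h⟩ := z
    rw [mem_product, mem_range, mem_Icc] at hz
    obtain ⟨haA, hh1, hhH⟩ := hz
    simp only at haA hh1 hhH
    have haA' : a ≤ A := by omega
    obtain ⟨D, hD⟩ : ∃ D, D = primorial y * h := ⟨_, rfl⟩
    have hD1 : 1 ≤ D := by rw [hD]; exact Nat.mul_pos (primorial_pos y) hh1
    have hDk : D ≤ k ^ (2 * K₁ + J) := by
      rw [hD]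
      exact Pool.Agent.N625.PT.mult_small K₁ J k y h (by omega) hy2 (hhH.trans hH)
    have hDx : D ≤ x := hDk.trans hbigx
    obtain ⟨S, hS⟩ : ∃ S, S = Adm a (primorial y * h) x := ⟨_, rfl⟩
    have hden : (x : ℝ) ≤ S.card * (k : ℝ) ^ (2 * K₁ + J + 1) := by
      have g1 : x / D ≤ S.card := by rw [hS, hD]; exact adm_card a _ x
      have g2 : x ≤ 2 * (x / D * D) := by
        have e1 := Nat.div_add_mod x D
        have e2 : x % D < D := Nat.mod_lt _ (by omega)
        have e3 : 1 ≤ x / D := (Nat.one_le_div_iff (by omega)).2 hDx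
        have e4 : D ≤ x / D * D := Nat.le_mul_of_pos_left _ e3
        have e5 : D * (x / D) = x / D * D := by ring
        omega
      have g3 : x ≤ S.card * k ^ (2 * K₁ + J + 1) := by
        calc x ≤ 2 * (x / D * D) := g2
          _ ≤ 2 * (S.card * k ^ (2 * K₁ + J)) := Nat.mul_le_mul_left 2 (Nat.mul_le_mul g1 hDk)
          _ = S.card * (k ^ (2 * K₁ + J) * 2) := by ring
          _ ≤ S.card * (k ^ (2 * K₁ + J) * k) := Nat.mul_le_mul_left _ (Nat.mul_le_mul_left _ (by omega))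
          _ = _ := by rw [← pow_succ]
      exact_mod_cast g3
    have hS1 : ∀ n ∈ S, 1 ≤ n ∧ n ≤ x ∧ (p n + 2 * a * n).Coprime (primorial y * h) := by
      intro n hn
      rw [hS] at hn
      unfold Adm at hn
      rw [mem_filter, mem_Icc] at hn
      exact ⟨hn.1.1, hn.1.2, hn.2⟩
    obtain ⟨S', hS'⟩ : ∃ S', S' = S.image (fun n : ℕ => p n + 2 * a * n) := ⟨_, rfl⟩
    have hinj : Set.InjOn (fun n : ℕ => p n + 2 * a * n) S := fun m hm n hn hmn =>
      f_inj a (hS1 m (by exact_mod_cast hm)).1 (hS1 n (by exact_mod_cast hn)).1 hmn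
    have hcard : S'.card = S.card := by rw [hS']; exact card_image_of_injOn hinj
    have hc2 : |2 * c| ≤ ((2 * B : ℕ) : ℤ) * (b : ℤ) ^ k := by
      rw [abs_mul]
      push_cast
      have : |(2 : ℤ)| = 2 := rfl
      rw [this]
      linarith
    have h5 := h0 k (by omega) μ hμ y hy1 hy2 (2 * c) hc2 h hh1 (hhH.trans hH) (x * k ^ (J + 5)) hX1 hX2 S' (by
        intro s hs
        rw [hS', mem_image] at hs
        obtain ⟨n, hn, rfl⟩ := hs
        have g1 := hS1 n hn
        rw [mem_Icc]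
        exact ⟨by have := (p_prime n).pos; omega, hf a n haA' g1.2.1⟩) (by
        intro s hs
        rw [hS', mem_image] at hs
        obtain ⟨n, hn, rfl⟩ := hs
        exact (hS1 n hn).2.2) (by
        rw [hcard]
        push_cast
        calc (x : ℝ) * (k : ℝ) ^ (J + 5) ≤ (S.card * (k : ℝ) ^ (2 * K₁ + J + 1)) * (k : ℝ) ^ (J + 5) :=
              mul_le_mul_of_nonneg_right hden (by positivity)
          _ = _ := by rw [mul_assoc, ← pow_add]; congr 2; omega) 1 (Or.inl rfl)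
    refine le_trans (sum_le_sum fun v _ => ?_) h5
    have hpv := hcls.nonneg _ _ hμ v
    by_cases hq : Bd (a, h) v
    · rw [if_pos hq, if_pos]
      rw [hBd] at hq
      simp only at hq
      rw [← hS] at hq
      obtain ⟨q1, q2⟩ := hq
      have hNv : ((primorial y * h : ℕ) : ℤ) * (2 * c + 2 * κ * (v : ℕ)) = 2 * Nv y h c κ v := by
        unfold Nv
        ring
      refine ⟨fun s hs => ?_, ?_⟩
      · rw [hNv]
        have : (0 : ℤ) ≤ (s : ℤ) := Int.natCast_nonneg s
        linarith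
      · have e1 : (S'.filter (fun s : ℕ => (((primorial y * h : ℕ) : ℤ) * (2 * c + 2 * κ * (v : ℕ)) + 1 * (s : ℕ)).toNat.Prime)).card =
            (Good a x (Nv y h c κ v)).card := by
          rw [hS', filter_image, card_image_of_injOn (hinj.mono (by
            intro i hi
            rw [mem_coe, mem_filter] at hi
            exact_mod_cast hi.1))]
          unfold Good
          congr 1
          ext n
          rw [mem_filter, mem_filter, mem_Icc]
          have e : ∀ n : ℕ, 2 * Nv y h c κ v + 1 * ((p n + 2 * a * n : ℕ) : ℤ) = (p n : ℤ) + 2 * (a * n + Nv y h c κ v) := by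
            intro n
            push_cast
            ring
          constructor
          · rintro ⟨hn, hpr⟩
            have g1 := hS1 n hn
            rw [hNv, e n] at hpr
            exact ⟨⟨g1.1, g1.2.1⟩, hpr⟩
          · rintro ⟨⟨g1, g2⟩, g4⟩
            have hnS : n ∈ S := by
              rw [hS]
              unfold Adm
              rw [mem_filter, mem_Icc]
              refine ⟨⟨g1, g2⟩, ?_⟩
              by_contra hcop
              obtain ⟨q, hqp, hqa, hqb⟩ := Nat.Prime.not_coprime_iff_dvd.1 hcop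
              -- `q` divides the prime
              have f1 : (q : ℤ) ∣ (p n : ℤ) + 2 * (a * n + Nv y h c κ v) := by
                rw [← e n]
                apply dvd_add
                · apply Dvd.dvd.mul_left
                  unfold Nv
                  exact (by exact_mod_cast hqb : (q : ℤ) ∣ ((primorial y * h : ℕ) : ℤ)).mul_right _
                · rw [one_mul]
                  exact_mod_cast hqa
              have f0 : (0 : ℤ) ≤ (p n : ℤ) := Int.natCast_nonneg _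
              have f0' : (0 : ℤ) ≤ (a : ℤ) * n := by positivity
              have f2 : (0 : ℤ) < (p n : ℤ) + 2 * (a * n + Nv y h c κ v) := by linarith
              have f3 : q ∣ ((p n : ℤ) + 2 * (a * n + Nv y h c κ v)).toNat := by
                rw [← Int.natCast_dvd_natCast, Int.toNat_of_nonneg f2.le]
                exact f1
              have f4 := (Nat.prime_dvd_prime_iff_eq hqp g4).1 f3
              have f5 : q ≤ primorial y * h := Nat.le_of_dvd (Nat.mul_pos (primorial_pos y) hh1) hqb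
              have f6 : ((primorial y * h : ℕ) : ℤ) ≤ Nv y h c κ v := by
                apply Int.le_of_dvd q1
                unfold Nv
                exact dvd_mul_right _ _
              have f7 : (q : ℤ) = (p n : ℤ) + 2 * (a * n + Nv y h c κ v) := by
                rw [f4, Int.toNat_of_nonneg f2.le]
              have f8 : (q : ℤ) ≤ ((primorial y * h : ℕ) : ℤ) := by exact_mod_cast f5
              linarith
            refine ⟨hnS, ?_⟩
            rw [hNv, e n]
            exact g4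
        rw [e1, hcard]
        refine lt_of_le_of_lt ?_ q2
        apply mul_le_mul_of_nonneg_right hε2
        exact div_nonneg (Nat.cast_nonneg _) (mul_nonneg hVy.le (mul_nonneg hk0.le hlogb))
    · rw [if_neg hq]
      split_ifs
      · exact hpv
      · exact le_rfl
  -- Markov
  obtain ⟨cnt, hcnt⟩ : ∃ cnt : ℕ → ℝ, ∀ v, cnt v = (((range (A + 1) ×ˢ Icc 1 H).filter (fun z => Bd z v)).card : ℝ) := ⟨_, fun _ => rfl⟩
  have hcnt0 : ∀ v, 0 ≤ cnt v := fun v => by rw [hcnt]; exact Nat.cast_nonneg _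
  have hset : ∀ v, (((range (A + 1) ×ˢ Icc 1 H).filter (fun z => ¬ (0 < Nv y z.2 c κ v →
          |((Good z.1 x (Nv y z.2 c κ v)).card : ℝ) - (Adm z.1 (primorial y * z.2) x).card / (V y * (k * Real.log b))| ≤
            ε * ((Adm z.1 (primorial y * z.2) x).card / (V y * (k * Real.log b)))))).card : ℝ) = cnt v := by
    intro v
    rw [hcnt]
    congr 2
    apply filter_congr
    intro z _
    rw [hBd]
    push Not
    rfl
  have hexp : ∑ v ∈ range (b ^ k), μ v * cnt v ≤ ((A + 1) * H) * ε ^ 2 := by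
    have e1 : ∀ v, μ v * cnt v = ∑ z ∈ range (A + 1) ×ˢ Icc 1 H, (if Bd z v then μ v else 0) := by
      intro v
      rw [hcnt, card_eq_sum_ones, Nat.cast_sum, sum_filter, mul_sum]
      apply sum_congr rfl
      intro z _
      split_ifs <;> simp
    simp_rw [e1]
    rw [sum_comm]
    refine (sum_le_sum key).trans (le_of_eq ?_)
    rw [sum_const, card_product, card_range, Nat.card_Icc, nsmul_eq_mul, Nat.add_sub_cancel]
    push_cast
    ring
  simp_rw [hset]
  rcases Nat.eq_zero_or_pos H with hH0 | hH0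
  · refine le_trans (le_of_eq ?_) hε.le
    apply sum_eq_zero
    intro v _
    rw [if_pos]
    rw [hcnt, hH0]
    simp
  · have hHr : (0 : ℝ) < H := by exact_mod_cast hH0
    have hAr : (0 : ℝ) < (A : ℝ) + 1 := by positivity
    have h6 : (∑ v ∈ range (b ^ k), (if cnt v ≤ ε * ((A + 1) * H) then 0 else μ v)) * (ε * ((A + 1) * H)) ≤ ε * (ε * ((A + 1) * H)) := by
      calc (∑ v ∈ range (b ^ k), (if cnt v ≤ ε * ((A + 1) * H) then 0 else μ v)) * (ε * ((A + 1) * H)) ≤ ∑ v ∈ range (b ^ k), μ v * cnt v := by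
            rw [sum_mul]
            apply sum_le_sum
            intro v _
            have hpv := hcls.nonneg _ _ hμ v
            split_ifs with hv
            · rw [zero_mul]
              exact mul_nonneg hpv (hcnt0 v)
            · exact mul_le_mul_of_nonneg_left (not_le.1 hv).le hpv
        _ ≤ ((A + 1) * H) * ε ^ 2 := hexp
        _ = _ := by ring
    exact le_of_mul_le_mul_right h6 (by positivity)


/-- The main term: the number of the admissible `i ≤ x` divided by `V y log M`. -/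
noncomputable def Main (a D x y M : ℕ) : ℝ := (Adm a D x).card / (V y * Real.log M)

open Classical in
/-- The integer `w` is `ε`-good: for all the pairs `(a, h)`, `a ≤ A`, `1 ≤ h ≤ H`, with at most `ε (A + 1) H` exceptions, either
`N = h w ∏_{q ≤ y} q` is not positive, or the number of ALL `i ≤ x` such that `p_i + 2 (a i + N)` is prime differs from the
main term by at most `ε` times the main term. -/
def GoodFor (ε : ℝ) (A H x y M : ℕ) (w : ℤ) : Prop :=
  (((range (A + 1) ×ˢ Icc 1 H).filter (fun t : ℕ × ℕ => ¬ (0 < Nw y t.2 w →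
    |((Good t.1 x (Nw y t.2 w)).card : ℝ) - Main t.1 (primorial y * t.2) x y M| ≤
      ε * Main t.1 (primorial y * t.2) x y M))).card : ℝ) ≤ ε * ((A + 1) * H)

open Classical in
/-- Let `g(t) = ∑ b x t ^ x` be a generalised polynomial (real exponents and coefficients) whose largest exponent `c` is
positive and not an integer. Let `M` be large and `N ^ c log M ≤ M ≤ N ^ c log ^ W M`, let `z` be a real number and `c₀` an
integer with `|z|, |c₀| ≤ B M`, let `y` be between `θ log log M` and `K₁ log log M` (`θ > 0` is arbitrary),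
`A, H ≤ log ^ J M`, and let `x` be an integer with `M ≤ x log ^ C M`, `x ≤ M log ^ C M`. Then for all the primes `N < q ≤ 2 N`
up to a proportion `ε`, the integer `w = c₀ + κ ⌊g(q) + z⌋` has the property: for all the pairs `(a, h)`, `0 ≤ a ≤ A`,
`1 ≤ h ≤ H`, up to a proportion `ε`, if `N_h = h w ∏_{l ≤ y} l > 0` (`l` prime), then the number of ALL `i ≤ x` such that
`p_i + 2 P(i)` is prime for the polynomial `P(i) = a i + N_h` differs from `E = #{i ≤ x: p_i + 2 a i` prime to `h ∏_{l ≤ y} l} /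
(V y log M)` by at most `ε E`; this set has at least `⌊x / (h ∏_{l ≤ y} l)⌋` elements. -/
theorem result (F : Finset ℝ) (b : ℝ → ℝ) (c : ℝ) (hF : Leading F b c) (κ : ℤ) (hκ : κ ≠ 0) (B J C K₁ W : ℕ) (θ : ℝ)
    (hθ : 0 < θ) (ε : ℝ) (hε : 0 < ε) (hε1 : ε ≤ 1) : ∃ M₀ : ℕ, ∀ M : ℕ, M₀ ≤ M →
    ∀ N : ℕ, (N : ℝ) ^ c * Real.log M ≤ M → (M : ℝ) ≤ (N : ℝ) ^ c * Real.log M ^ W →
    ∀ (z : ℝ) (c₀ : ℤ), |z| ≤ B * M → |c₀| ≤ B * M →
    ∀ y : ℕ, θ * Real.log (Real.log M) ≤ y → y ≤ K₁ * Real.log (Real.log M) →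
    ∀ A H : ℕ, (A : ℝ) ≤ Real.log M ^ J → (H : ℝ) ≤ Real.log M ^ J →
    ∀ x : ℕ, (M : ℝ) ≤ x * Real.log M ^ C → (x : ℝ) ≤ M * Real.log M ^ C →
      (∀ a h : ℕ, x / (primorial y * h) ≤ (Adm a (primorial y * h) x).card) ∧
      (((Ioc N (2 * N)).filter fun q : ℕ => q.Prime ∧ ¬ GoodFor ε A H x y M (c₀ + κ * ⌊genPoly F b q + z⌋)).card : ℝ) ≤
        ε * ((Ioc N (2 * N)).filter Nat.Prime).card := by
  obtain ⟨hcF, hmax, hc, hn, hb⟩ := hF
  obtain ⟨ρ, hρ0, hρ1, htr⟩ := Pool.Agent.Run7.h844.RP.pr_transfer F c hcF hn hc hmax b hb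
  obtain ⟨k₁, htr⟩ := htr (W + 2)
  obtain ⟨L, hcls⟩ := Pool.Agent.Run7.h844.RP.pw_rcls (8 + 2 * (W + 2)) ρ hρ0 hρ1
  obtain ⟨k₂, hcore⟩ := core hcls κ hκ (2 * (B + κ.natAbs * (B + 2))) J (C + 1) K₁ (θ / 2) (by positivity) (ε / 2)
    (by positivity) (by linarith)
  obtain ⟨M₁, hM₁⟩ := Pool.Agent.Run7.h844.RP.scale_k (k₁ + k₂ + 4) (ε / 2) (by positivity)
  refine ⟨M₁ + 1, fun M hM N hN1 hN2 z c₀ hz hc₀ y hy1 hy2 A H hA hH x hx1 hx2 => ⟨fun a h => adm_card a _ x, ?_⟩⟩
  obtain ⟨hl3, hll1, k, hk, q1, q2, q3, q4, q5, q6, q7, q8⟩ := hM₁ M (by omega)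
  obtain ⟨ℓ, hℓ⟩ : ∃ ℓ : ℝ, ℓ = Real.log M := ⟨_, rfl⟩
  rw [← hℓ] at hl3 hll1 q3 q4 q5 q6 q7 q8 hN1 hN2 hy1 hy2 hA hH hx1 hx2
  have hM0 : (0 : ℝ) < M := by exact_mod_cast (by omega : 0 < M)
  have hk4 : (4 : ℝ) ≤ k := by exact_mod_cast (by omega : 4 ≤ k)
  have hk0 : (0 : ℝ) < k := by linarith
  have hℓ0 : 0 < ℓ := by linarith
  have q1r : 2 * (M : ℝ) < 2 ^ k := by exact_mod_cast q1
  have q2r : (2 : ℝ) ^ k ≤ 4 * M := by exact_mod_cast q2
  have hNc0 : 0 ≤ (N : ℝ) ^ c := by positivity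
  -- the law
  obtain ⟨p, hp, hcount⟩ := htr k (by omega) N (by nlinarith) (by
    calc (2 : ℝ) ^ k ≤ 4 * M := q2r
      _ ≤ 4 * ((N : ℝ) ^ c * ℓ ^ W) := by linarith
      _ ≤ k ^ 2 * ((N : ℝ) ^ c * (k : ℝ) ^ W) := by
          apply mul_le_mul (by nlinarith) _ (by positivity) (by positivity)
          exact mul_le_mul_of_nonneg_left (pow_le_pow_left₀ hℓ0.le q3 W) hNc0
      _ = (N : ℝ) ^ c * (k : ℝ) ^ (W + 2) := by ring) z
  -- the constant
  obtain ⟨cc, hcc⟩ : ∃ cc : ℤ, cc = c₀ + κ * (⌊z⌋ - 2 ^ (k - 1)) := ⟨_, rfl⟩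
  have hMz : (M : ℤ) ≤ 2 ^ k := by exact_mod_cast (by omega : M ≤ 2 ^ k)
  have hpz : (2 : ℤ) ^ (k - 1) ≤ 2 ^ k := pow_le_pow_right₀ (by norm_num) (by omega)
  have hp0 : (0 : ℤ) < 2 ^ (k - 1) := by positivity
  have hp1 : (0 : ℤ) < 2 ^ k := by positivity
  have hfz : |⌊z⌋| ≤ B * M + 1 := by
    have e1 : |z| ≤ ((B * M : ℕ) : ℝ) := by push_cast; exact hz
    rw [abs_le] at e1 ⊢
    have e2 : ⌊z⌋ ≤ (B * M : ℕ) := by
      have := (Int.floor_le z).trans e1.2
      exact_mod_cast this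
    have e3 : -((B * M : ℕ) : ℤ) ≤ ⌊z⌋ := by
      rw [Int.le_floor]
      push_cast
      push_cast at e1
      exact e1.1
    push_cast at e2 e3
    constructor <;> linarith
  have hcb : |cc| ≤ ((2 * (B + κ.natAbs * (B + 2)) : ℕ) : ℤ) * ((2 : ℕ) : ℤ) ^ k := by
    have e1 : |(⌊z⌋ - 2 ^ (k - 1) : ℤ)| ≤ (B + 2) * 2 ^ k := by
      calc |(⌊z⌋ - 2 ^ (k - 1) : ℤ)| ≤ |⌊z⌋| + |(2 : ℤ) ^ (k - 1)| := abs_sub _ _
        _ ≤ (B * M + 1) + 2 ^ k := by
            rw [abs_of_pos hp0]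
            exact add_le_add hfz hpz
        _ ≤ (B * 2 ^ k + 2 ^ k) + 2 ^ k := by
            have : (B : ℤ) * M ≤ B * 2 ^ k := mul_le_mul_of_nonneg_left hMz (by positivity)
            linarith
        _ = _ := by ring
    have e2 : |c₀| ≤ B * 2 ^ k := hc₀.trans (mul_le_mul_of_nonneg_left hMz (by positivity))
    have e3 : |cc| ≤ B * 2 ^ k + |κ| * ((B + 2) * 2 ^ k) := by
      rw [hcc]
      refine (abs_add_le _ _).trans (add_le_add e2 ?_)
      rw [abs_mul]
      exact mul_le_mul_of_nonneg_left e1 (abs_nonneg _)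
    push_cast
    have e4 : 0 ≤ |κ| * ((B + 2) * 2 ^ k : ℤ) := by positivity
    have e5 : (0 : ℤ) ≤ B * 2 ^ k := by positivity
    linarith
  -- the ranges
  have hk2 : ℓ ^ J ≤ (k : ℝ) ^ J := pow_le_pow_left₀ hℓ0.le q3 J
  have hAk : A ≤ k ^ J := by
    have := hA.trans hk2
    exact_mod_cast this
  have hHk : H ≤ k ^ J := by
    have := hH.trans hk2
    exact_mod_cast this
  have hkC : ℓ ^ C ≤ (k : ℝ) ^ C := pow_le_pow_left₀ hℓ0.le q3 C
  have hx0 : (0 : ℝ) ≤ x := Nat.cast_nonneg x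
  have hxa : 2 ^ k ≤ x * k ^ (C + 1) := by
    have : (2 : ℝ) ^ k ≤ x * (k : ℝ) ^ (C + 1) := by
      calc (2 : ℝ) ^ k ≤ 4 * M := q2r
        _ ≤ 4 * (x * ℓ ^ C) := by linarith
        _ ≤ k * (x * (k : ℝ) ^ C) := by gcongr
        _ = _ := by ring
    exact_mod_cast this
  have hxb : x ≤ 2 ^ k * k ^ (C + 1) := by
    have : (x : ℝ) ≤ 2 ^ k * (k : ℝ) ^ (C + 1) := by
      calc (x : ℝ) ≤ M * ℓ ^ C := hx2
        _ ≤ 2 ^ k * (k : ℝ) ^ C := by
            apply mul_le_mul (by linarith) hkC (by positivity) (by positivity)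
        _ ≤ 2 ^ k * (k : ℝ) ^ (C + 1) := by
            apply mul_le_mul_of_nonneg_left _ (by positivity)
            exact pow_le_pow_right₀ (by linarith) (by omega)
    exact_mod_cast this
  have h5 := (hcore k (by omega) p hp y (by
      have : θ / 2 * Real.log k ≤ θ / 2 * (2 * Real.log ℓ) := mul_le_mul_of_nonneg_left q6 (by positivity)
      linarith) (by
      have : (K₁ : ℝ) * Real.log ℓ ≤ K₁ * Real.log k := mul_le_mul_of_nonneg_left q5 (Nat.cast_nonneg _)
      linarith) cc hcb A H hAk hHk x hxa hxb).2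
  have h6 := hcount (ε / 2) (fun v => GoodFor ε A H x y M (c₀ + κ * v)) (by
    refine le_trans (sum_le_sum fun v _ => ?_) h5
    have hv0 := hp.nonneg v
    have hw : c₀ + κ * (⌊z⌋ - 2 ^ (k - 1) + ((v : ℕ) : ℤ)) = cc + κ * v := by
      rw [hcc]
      ring
    rw [hw]
    by_cases hg : GoodFor ε A H x y M (cc + κ * v)
    · rw [if_pos hg]
      split_ifs
      · exact le_rfl
      · exact hv0
    · rw [if_neg hg, if_neg]
      intro hcon
      apply hg
      unfold GoodFor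
      have hAH : (0 : ℝ) ≤ (A + 1) * H := by positivity
      have hle : ε / 2 * ((A + 1) * H : ℝ) ≤ ε * ((A + 1) * H) := by nlinarith
      refine le_trans ?_ (hcon.trans hle)
      apply Nat.cast_le.2
      apply card_le_card
      intro t ht
      rw [mem_filter] at ht ⊢
      refine ⟨ht.1, fun himp => ht.2 fun hpos => ?_⟩
      have hNN : Nw y t.2 (cc + κ * v) = Nv y t.2 cc κ v := rfl
      rw [hNN] at hpos ⊢
      have h7 := himp hpos
      unfold Main
      rw [← hℓ]
      have hVy : 0 < V y := Pool.Agent.H373R2.T7.Vz_pos y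
      have hS : (0 : ℝ) ≤ (Adm t.1 (primorial y * t.2) x).card := Nat.cast_nonneg _
      have hkl : 0 < k * Real.log ((2 : ℕ) : ℝ) := by
        push_cast
        linarith
      have h8 := Pool.Agent.Run7.h844.RP.main_conv (G := ((Good t.1 x (Nv y t.2 cc κ v)).card : ℝ))
        (E := ((Adm t.1 (primorial y * t.2) x).card : ℝ) / (V y * ℓ))
        (E' := ((Adm t.1 (primorial y * t.2) x).card : ℝ) / (V y * (k * Real.log ((2 : ℕ) : ℝ)))) (η := ε / 2) (by
          apply div_le_div_of_nonneg_left hS (by positivity)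
          apply mul_le_mul_of_nonneg_left _ hVy.le
          push_cast
          exact q7) (by
          rw [mul_div_assoc', div_le_div_iff₀ (by positivity) (by positivity)]
          push_cast
          have e1 : (V y * (k * Real.log 2)) ≤ V y * ((1 + ε / 2) * ℓ) := mul_le_mul_of_nonneg_left q8 hVy.le
          calc ((Adm t.1 (primorial y * t.2) x).card : ℝ) * (V y * (k * Real.log 2)) ≤
              (Adm t.1 (primorial y * t.2) x).card * (V y * ((1 + ε / 2) * ℓ)) := mul_le_mul_of_nonneg_left e1 hS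
            _ = _ := by ring) (by positivity) (by positivity) h7
      refine h8.trans (le_of_eq ?_)
      ring)
  have hfin : ((Pool.Agent.Run7.h844.RP.PB N).card : ℝ) * (ε / 2) ≤ ε * (Pool.Agent.Run7.h844.RP.PB N).card := by
    have : (0 : ℝ) ≤ (Pool.Agent.Run7.h844.RP.PB N).card := Nat.cast_nonneg _
    nlinarith
  refine le_trans (le_of_eq ?_) (h6.trans hfin)
  unfold Pool.Agent.Run7.h844.RP.PB
  rw [filter_filter]
  rfl

end Pool.Agent.Results.MP_3aaefc_nt.ValuesAtPrimes
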